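import Pool.Agent.P.MP_870b40_al.Transfer

namespace Pool.Agent.P.MP_870b40_al

open Subgroup MulAction
open scoped commutatorElement

universe u v

variable {H : Type u} [Group H] {A : Type v} [CommGroup A] [MulDistribMulAction H A]

theorem smul_norm {g : H} {r : ℕ} (hg : g ^ r = 1) (a : A) :
    g • ∏ j ∈ Finset.range r, g ^ j • a = ∏ j ∈ Finset.range r, g ^ j • a := by
  rw [Finset.smul_prod']
  have h1 := Finset.prod_range_succ (fun j => g ^ j • a) r
  have h2 := Finset.prod_range_succ' (fun j => g ^ j • a) r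
  rw [h1, hg, pow_zero] at h2
  rw [mul_right_cancel h2]
  refine Finset.prod_congr rfl fun j _ => ?_
  rw [pow_succ', mul_smul]

theorem pow_smul_mem {U : Subgroup A} {g : H} (h : ∀ a ∈ U, g • a ∈ U) (j : ℕ) {a : A}
    (ha : a ∈ U) : g ^ j • a ∈ U := by
  induction j with
  | zero => simpa using ha
  | succ j ih => rw [pow_succ', mul_smul]; exact h _ ih

/-- a group of rank two cannot act without fixed points -/
theorem exists_fixed {x y : H} (hxy : Commute x y) {r : ℕ} (hr : r.Prime) (hx : x ^ r = 1)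
    (hy : y ^ r = 1) (hA : ∀ a : A, a ^ r = 1 → a = 1) {U : Subgroup A} (hU : U ≠ ⊥)
    (hxU : ∀ a ∈ U, x • a ∈ U) (hyU : ∀ a ∈ U, y • a ∈ U) :
    ∃ a ∈ U, a ≠ 1 ∧ (y • a = a ∨ ∃ i : ℕ, (x * y ^ i) • a = a) := by
  by_contra hcon
  push Not at hcon
  refine hU (eq_bot_iff.2 fun a ha => mem_bot.2 (hA a ?_))
  have h1 : ∀ i : ℕ, ∏ j ∈ Finset.range r, (x * y ^ i) ^ j • a = 1 := by
    intro i
    by_contra h1
    have h2 : ∀ b ∈ U, (x * y ^ i) • b ∈ U := fun b hb => by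
      rw [mul_smul]; exact hxU _ (pow_smul_mem hyU i hb)
    refine (hcon _ (U.prod_mem fun j _ => pow_smul_mem h2 j ha) h1).2 i (smul_norm ?_ a)
    rw [(hxy.pow_right i).mul_pow, hx, ← pow_mul, mul_comm i, pow_mul, hy, one_pow, mul_one]
  have h2 : ∀ j : ℕ, j + 1 < r → ∏ i ∈ Finset.range r, (x * y ^ i) ^ (j + 1) • a = 1 := by
    intro j hj
    have h3 : ∀ i : ℕ, (x * y ^ i) ^ (j + 1) • a = (y ^ (j + 1)) ^ i • x ^ (j + 1) • a := by
      intro i
      rw [(hxy.pow_right i).mul_pow, ← pow_mul, mul_comm i, pow_mul, ← mul_smul,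
        ((hxy.pow_pow (j + 1) (j + 1)).pow_right i).eq]
    simp only [h3]
    by_contra h4
    have h5 : (y ^ (j + 1)) ^ r = 1 := by rw [← pow_mul, mul_comm, pow_mul, hy, one_pow]
    have h6 := smul_norm h5 (x ^ (j + 1) • a)
    refine (hcon _ (U.prod_mem fun i _ => pow_smul_mem (fun b hb => pow_smul_mem hyU _ hb) i
      (pow_smul_mem hxU _ ha)) h4).1 ?_
    have h7 : Nat.Coprime (j + 1) (orderOf y) :=
      Nat.Coprime.coprime_dvd_right (orderOf_dvd_of_pow_eq_one hy)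
        (Nat.coprime_of_lt_prime (Nat.succ_ne_zero j) hj hr).symm
    obtain ⟨m, hm⟩ := exists_pow_eq_self_of_coprime h7
    have h8 : (y ^ (j + 1)) ^ m ∈ stabilizer H (∏ i ∈ Finset.range r,
      (y ^ (j + 1)) ^ i • x ^ (j + 1) • a) := pow_mem h6 m
    rw [hm] at h8
    exact h8
  have h3 : ∏ j ∈ Finset.range r, ∏ i ∈ Finset.range r, (x * y ^ i) ^ j • a = 1 := by
    rw [Finset.prod_comm]
    exact Finset.prod_eq_one fun i _ => h1 i
  obtain ⟨s, rfl⟩ : ∃ s, r = s + 1 := ⟨r - 1, (Nat.succ_pred_eq_of_pos hr.pos).symm⟩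
  rw [Finset.prod_range_succ', Finset.prod_eq_one fun j hj => h2 j (by simpa using hj)] at h3
  simpa using h3

variable (A) in
/-- maximal stabilisers of nontrivial vectors in `B` -/
structure MS (B Y : Subgroup H) : Prop where
  le : Y ≤ B
  ex : ∃ a : A, a ≠ 1 ∧ Y ≤ stabilizer H a
  max : ∀ a : A, a ≠ 1 → Y ≤ stabilizer H a → B ⊓ stabilizer H a ≤ Y

theorem smul_stab (g : H) (a : A) : g • stabilizer H a = stabilizer H (g • a) := by
  ext x
  rw [mem_smul, mem_stabilizer_iff, mem_stabilizer_iff, mul_smul, mul_smul, inv_smul_eq_iff]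

theorem smul_ne_one {g : H} {a : A} (h : a ≠ 1) : g • a ≠ 1 := fun h1 =>
  h (by rw [← inv_smul_smul g a, h1, smul_one])

theorem MS.smul {B Y : Subgroup H} (h : MS A B Y) (g : H) : MS A (g • B) (g • Y) := by
  refine ⟨smul_mono h.le, ?_, fun a ha h1 => ?_⟩
  · obtain ⟨a, ha, h1⟩ := h.ex
    exact ⟨g • a, smul_ne_one ha, by rw [← smul_stab]; exact smul_mono h1⟩
  · have h2 := h.max (g⁻¹ • a) (smul_ne_one ha)
      (by rw [← smul_stab]; simpa using smul_mono (g := g⁻¹) h1)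
    have h3 := smul_mono (g := g) h2
    rwa [smul_inf', smul_stab, smul_inv_smul] at h3

theorem MS.eq {B Y : Subgroup H} (h : MS A B Y) {a : A} (ha : a ≠ 1)
    (h1 : Y ≤ stabilizer H a) : B ⊓ stabilizer H a = Y :=
  le_antisymm (h.max a ha h1) (le_inf h.le h1)

theorem MS.eq_of_le {B Y Y' : Subgroup H} (h : MS A B Y) (h' : MS A B Y') (hle : Y ≤ Y') :
    Y = Y' := by
  obtain ⟨a, ha, h1⟩ := h'.ex
  exact le_antisymm hle ((le_inf h'.le h1).trans (h.max a ha (hle.trans h1)))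

theorem MS.restrict {B B' Y : Subgroup H} (h : MS A B Y) (h1 : Y ≤ B') (h2 : B' ≤ B) :
    MS A B' Y :=
  ⟨h1, h.ex, fun a ha h3 => (inf_le_inf_right _ h2).trans (h.max a ha h3)⟩

variable [Finite H]

theorem exists_MS [Nontrivial A] (B : Subgroup H) : ∃ Y, MS A B Y := by
  obtain ⟨a₀, ha₀⟩ := exists_ne (1 : A)
  obtain ⟨Y, ⟨h1, h2⟩, hY⟩ :=
    wellFounded_gt.has_min {Y : Subgroup H | Y ≤ B ∧ ∃ a : A, a ≠ 1 ∧ Y ≤ stabilizer H a}
      ⟨⊥, bot_le, a₀, ha₀, bot_le⟩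
  refine ⟨Y, h1, h2, fun a ha h3 => ?_⟩
  by_contra h4
  exact hY (B ⊓ stabilizer H a) ⟨inf_le_left, a, ha, inf_le_right⟩
    (lt_of_le_not_ge (le_inf h1 h3) h4)

open Classical in
/-- trace map -/
noncomputable def tr (Y : Subgroup H) : A →* A where
  toFun a := ∏ y ∈ (Set.toFinite (Y : Set H)).toFinset, y • a
  map_one' := by simp
  map_mul' a b := by simp [Finset.prod_mul_distrib]

theorem tr_apply (Y : Subgroup H) (a : A) :
    tr Y a = ∏ y ∈ (Set.toFinite (Y : Set H)).toFinset, y • a := rfl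

theorem smul_tr {Y : Subgroup H} {y : H} (hy : y ∈ Y) (a : A) : y • tr Y a = tr Y a := by
  rw [tr_apply, Finset.smul_prod']
  refine Finset.prod_nbij' (fun z => y * z) (fun z => y⁻¹ * z) ?_ ?_ ?_ ?_ ?_
  · intro z hz
    simp only [Set.Finite.mem_toFinset, SetLike.mem_coe] at hz ⊢
    exact Y.mul_mem hy hz
  · intro z hz
    simp only [Set.Finite.mem_toFinset, SetLike.mem_coe] at hz ⊢
    exact Y.mul_mem (Y.inv_mem hy) hz
  · intro z _; simp
  · intro z _; simp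
  · intro z _; rw [mul_smul]

theorem tr_smul (Y : Subgroup H) (g : H) (a : A) : tr (g • Y) (g • a) = g • tr Y a := by
  rw [tr_apply, tr_apply, Finset.smul_prod']
  refine Finset.prod_nbij' (fun z => g⁻¹ * z * g) (fun z => g * z * g⁻¹) ?_ ?_ ?_ ?_ ?_
  · intro z hz
    simp only [Set.Finite.mem_toFinset, SetLike.mem_coe] at hz ⊢
    exact mem_smul.1 hz
  · intro z hz
    simp only [Set.Finite.mem_toFinset, SetLike.mem_coe] at hz ⊢
    exact smul_mem_smul.2 hz
  · intro z _; simp [mul_assoc]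
  · intro z _; simp [mul_assoc]
  · intro z _; simp [mul_smul]

theorem tr_ne_one {Y : Subgroup H} {r : ℕ} (hr : r.Prime) (hY : ∀ y ∈ Y, y ^ r = 1)
    (hA : ∀ a : A, a ^ r = 1 → a = 1) {a : A} (ha : a ≠ 1) (h : Y ≤ stabilizer H a) :
    tr Y a ≠ 1 := by
  have := Fact.mk hr
  have h1 : IsPGroup r Y := fun y => ⟨1, Subtype.ext (by simpa using hY y y.2)⟩
  obtain ⟨k, hk⟩ := IsPGroup.iff_card.1 h1
  have h2 : tr Y a = a ^ r ^ k := by
    rw [tr_apply, Finset.prod_congr rfl (g := fun _ => a)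
      (fun y hy => h (by simpa using hy)), Finset.prod_const, ← hk,
      ← Set.ncard_eq_toFinset_card]
    rfl
  rw [h2]
  clear hk h2
  induction k with
  | zero => simpa using ha
  | succ k ih => rw [pow_succ, pow_mul]; exact fun h3 => ih (hA _ h3)

/-- a family of maximal stabilisers is encoded by one vector -/
theorem exists_code {B : Subgroup H} (hB : B ≤ Cz B) {r : ℕ} (hr : r.Prime)
    (hBr : ∀ y ∈ B, y ^ r = 1) (hA : ∀ a : A, a ^ r = 1 → a = 1) (F : Finset (Subgroup H))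
    (hF : ∀ Y ∈ F, MS A B Y) :
    ∃ w : A, ∀ h : H, h • B = B → h • w = w → ∀ Y ∈ F, h • Y ∈ F := by
  classical
  choose! a ha1 ha2 using fun Y hY => (hF Y hY).ex
  have h1 : ∀ Y, MS A B Y → ∀ Y' ∈ F, Y' ≠ Y → tr Y (a Y') = 1 := by
    intro Y hY Y' hY' hne
    by_contra h1
    refine hne ((hF Y' hY').eq_of_le hY (le_trans (le_inf (hF Y' hY').le fun y hy => ?_)
      (hY.max _ h1 fun y hy => smul_tr hy _)))
    have h2 : y • Y = Y :=
      (nz_of_le_Cz (hB.trans (Cz_anti hY.le))).smul_eq ((hF Y' hY').le hy)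
    change y • tr Y (a Y') = tr Y (a Y')
    rw [← tr_smul, h2, show y • a Y' = a Y' from ha2 Y' hY' hy]
  refine ⟨∏ Y ∈ F, a Y, fun h hB' hw Y hY => ?_⟩
  have h2 : tr Y (∏ Y ∈ F, a Y) ≠ 1 := by
    rw [map_prod, Finset.prod_eq_single_of_mem Y hY fun Y' hY' hne => h1 Y (hF Y hY) Y' hY' hne]
    exact tr_ne_one hr (fun y hy => hBr y ((hF Y hY).le hy)) hA (ha1 Y hY) (ha2 Y hY)
  by_contra h3
  refine smul_ne_one (g := h) h2 ?_
  rw [← tr_smul, hw, map_prod]
  refine Finset.prod_eq_one fun Y' hY' => h1 _ ?_ Y' hY' fun h4 => h3 (h4 ▸ hY')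
  simpa [hB'] using (hF Y hY).smul h

end Pool.Agent.P.MP_870b40_al
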