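import Pool.Agent.P.MP_870b40_al.NA
import Pool.Agent.P.MP_870b40_al.Lin

namespace Pool.Agent.P.MP_870b40_al

open Subgroup MulAction
open scoped commutatorElement

universe u v w

variable {H : Type u} [Group H] {A : Type w} [CommGroup A] [MulDistribMulAction H A]
  {T : Type v} [Group T]

variable (A) in
/-- common fixed vectors -/
def Fx (K : Subgroup H) : Subgroup A where
  carrier := {a | K ≤ stabilizer H a}
  one_mem' := fun k _ => smul_one k
  mul_mem' := fun {a b} ha hb k hk => by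
    change k • (a * b) = a * b
    rw [smul_mul', show k • a = a from ha hk, show k • b = b from hb hk]
  inv_mem' := fun {a} ha k hk => by
    change k • a⁻¹ = a⁻¹
    rw [smul_inv', show k • a = a from ha hk]

theorem mem_Fx {K : Subgroup H} {a : A} : a ∈ Fx A K ↔ K ≤ stabilizer H a := Iff.rfl

theorem smul_mem_Fx {K : Subgroup H} {a : A} {g : H} : g • a ∈ Fx A (g • K) ↔ a ∈ Fx A K := by
  rw [mem_Fx, mem_Fx, ← smul_stab, smul_le_iff]

theorem Nz.smul_mem_Fx {L K : Subgroup H} (h : Nz L K) {l : H} (hl : l ∈ L) {a : A}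
    (ha : a ∈ Fx A K) : l • a ∈ Fx A K := by
  rw [← h.smul_eq hl]
  exact Pool.Agent.P.MP_870b40_al.smul_mem_Fx.2 ha

variable (H A) in
/-- faithful irreducible action -/
structure Irr : Prop where
  faith : ∀ h : H, (∀ a : A, h • a = a) → h = 1
  irr : ∀ U : Subgroup A, (∀ h : H, ∀ a ∈ U, h • a ∈ U) → U = ⊥ ∨ U = ⊤

theorem Irr.eq_bot (hI : Irr H A) {K : Subgroup H} (h : Fx A K = ⊤) : K = ⊥ :=
  eq_bot_iff.2 fun k hk => mem_bot.2 (hI.faith k fun a => (h ▸ mem_top a : a ∈ Fx A K) hk)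

theorem Irr.fix_normal (hI : Irr H A) {K : Subgroup H} [K.Normal] (hK : K ≠ ⊥) {a : A}
    (h : K ≤ stabilizer H a) : a = 1 := by
  rcases hI.irr (Fx A K) (fun g a ha => (nz_normal ⊤ K).smul_mem_Fx (mem_top g) ha) with h1 | h1
  · exact mem_bot.1 (h1 ▸ (h : a ∈ Fx A K))
  · exact absurd (hI.eq_bot h1) hK

variable (A) in
/-- the desired conclusion -/
def Goal (φ : H →* T) : Prop := ∃ a b : A, ¬ Full φ (stabilizer H a ⊓ stabilizer H b)

variable (A) in
/-- reduction to proper invariant subgroups -/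
def Red (φ : H →* T) : Prop :=
  ∀ (U : Subgroup A) (L : Subgroup H), U ≠ ⊤ → (∀ l ∈ L, ∀ a ∈ U, l • a ∈ U) →
    (∀ K, K ≤ L → Nz L K → Full φ K → ¬ U ≤ Fx A K) →
    ∃ a ∈ U, ∃ b ∈ U, ¬ Full φ (L ⊓ stabilizer H a ⊓ stabilizer H b)

variable [Finite H] [Finite A] [Nontrivial A]

/-- a vector fixed by no member of a commuting family -/
theorem Irr.exists_vec (hI : Irr H A) {R : Subgroup H} [R.Normal] (F : Set (Subgroup H))
    (h1 : ∀ L ∈ F, L ≤ R) (h2 : ∀ L ∈ F, Nz R L) (h3 : ∀ L ∈ F, L ≠ ⊥)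
    (h4 : ∀ L ∈ F, ∀ L' ∈ F, L ≠ L' → L ≤ Cz L') : ∃ v : A, ∀ L ∈ F, v ∉ Fx A L := by
  obtain ⟨U, ⟨hU1, hU2⟩, hU⟩ :=
    wellFounded_lt.has_min {U : Subgroup A | U ≠ ⊥ ∧ ∀ r ∈ R, ∀ a ∈ U, r • a ∈ U}
      ⟨⊤, top_ne_bot, fun _ _ _ _ => mem_top _⟩
  have hU3 : ∀ K, Nz R K → ∀ a ∈ U, a ≠ 1 → a ∈ Fx A K → U ≤ Fx A K := by
    intro K hK a ha ha1 haK
    by_contra h
    refine hU (U ⊓ Fx A K) ⟨fun h5 => ha1 (mem_bot.1 (h5 ▸ (⟨ha, haK⟩ : a ∈ U ⊓ Fx A K))),
      fun r hr b hb => ⟨hU2 r hr b hb.1, hK.smul_mem_Fx hr hb.2⟩⟩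
      (lt_of_le_not_ge inf_le_left fun h5 => h (h5.trans inf_le_right))
  obtain ⟨v, -, hv⟩ := exists_minimalFor_of_wellFoundedLT (fun _ : A => True)
    (fun v => {L ∈ F | v ∈ Fx A L}) ⟨1, trivial⟩
  refine ⟨v, fun L₀ hL₀ hvL => ?_⟩
  obtain ⟨h, u, hu, hhu⟩ : ∃ h : H, ∃ u ∈ U, h • u ∉ Fx A L₀ := by
    by_contra hcon
    push Not at hcon
    let V : Subgroup A :=
      { carrier := {a | ∀ h : H, h • a ∈ Fx A L₀}
        one_mem' := fun h => by rw [smul_one]; exact one_mem _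
        mul_mem' := fun {a b} ha hb h => by rw [smul_mul']; exact mul_mem (ha h) (hb h)
        inv_mem' := fun {a} ha h => by rw [smul_inv']; exact inv_mem (ha h) }
    rcases hI.irr V (fun g a ha h => by rw [← mul_smul]; exact ha _) with h5 | h5
    · exact hU1 (eq_bot_iff.2 fun a ha => h5 ▸ fun h => hcon h a ha)
    · refine h3 L₀ hL₀ (hI.eq_bot (eq_top_iff.2 fun a _ => ?_))
      simpa using (h5 ▸ mem_top a : a ∈ V) 1
  have key : {L ∈ F | v * h • u ∈ Fx A L} ≤ {L ∈ F | v ∈ Fx A L} := by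
    rintro L ⟨hL, hvL'⟩
    refine ⟨hL, ?_⟩
    by_cases hLL : L = L₀
    · exact hLL ▸ hvL
    have hz : Nz R (h⁻¹ • L) := by rw [← normal_smul R h⁻¹]; exact (h2 L hL).smul _
    have h5 : U ≤ Fx A (h⁻¹ • L) := by
      by_contra h5
      refine hhu fun l hl => ?_
      have h6 : l • (v * h • u) ∈ Fx A L :=
        (nz_of_le_Cz (h4 L₀ hL₀ L hL (Ne.symm hLL))).smul_mem_Fx hl hvL'
      rw [smul_mul', show l • v = v from hvL hl] at h6
      have h7 : (h • u)⁻¹ * l • h • u ∈ Fx A L := by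
        have := mul_mem (inv_mem hvL') h6
        rwa [mul_inv_rev, mul_assoc, inv_mul_cancel_left] at this
      rw [← smul_mem_Fx (g := h⁻¹), smul_mul', smul_inv', inv_smul_smul, ← mul_smul,
        ← mul_smul] at h7
      have h8 : u⁻¹ * (h⁻¹ * l * h) • u ∈ U := mul_mem (inv_mem hu)
        (hU2 _ (by simpa using ‹R.Normal›.conj_mem l (h1 _ hL₀ hl) h⁻¹) u hu)
      have h9 : u⁻¹ * (h⁻¹ * l * h) • u = 1 := by
        by_contra h9
        exact h5 (hU3 _ hz _ h8 h9 h7)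
      rw [inv_mul_eq_one, mul_smul, mul_smul, eq_inv_smul_iff] at h9
      exact h9.symm
    have h6 : h • u ∈ Fx A L := by simpa using (smul_mem_Fx (g := h)).2 (h5 hu)
    exact ((Fx A L).mul_mem_cancel_right h6).1 hvL'
  have h5 := (hv trivial key ⟨hL₀, hvL⟩).2
  exact hhu (((Fx A L₀).mul_mem_cancel_left hvL).1 h5)

variable [NAS T] {φ : H →* T}

omit [Finite H] [Finite A] [Nontrivial A] in
theorem Irr.case_central (hI : Irr H A) {E : Subgroup H} (hE : Res φ E ⊤)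
    (h : φ.ker ≤ Cz E) : Goal A φ := by
  obtain ⟨v, hv⟩ : ∃ v : A, v ∉ Fx A E := by
    by_contra hcon
    push Not at hcon
    exact hE.full.ne_bot (hI.eq_bot (eq_top_iff.2 fun a _ => hcon a))
  by_cases hL : Full φ (stabilizer H v)
  swap
  · exact ⟨v, v, by simpa using hL⟩
  rcases hL.dich ((nz_self _).inf (hE.nz.mono le_top)) with h1 | h1
  · exfalso
    refine hv ((hE.min _ le_top h1 fun e he a ha => ?_).trans inf_le_left)
    obtain ⟨l, hl, hle⟩ := full_iff.1 h1 (φ e)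
    have h2 : l⁻¹ * e ∈ Cz E := h (by simp [MonoidHom.mem_ker, hle])
    have h3 := mem_Cz.1 h2 a ha.2
    have h4 : e * a * e⁻¹ = l * a * l⁻¹ := by
      calc e * a * e⁻¹ = l * (l⁻¹ * e * a) * e⁻¹ := by group
        _ = _ := by rw [← h3]; group
    rw [h4]
    exact nz_self _ l hl a ha
  · obtain ⟨e, -, h2⟩ := exists_not_full_of_inf_le_ker hE.full (hE.nz.mono le_top) h1
    exact ⟨v, e • v, by rwa [← smul_stab]⟩

variable (A) in
/-- the critical normal subgroup -/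
structure Ctx (φ : H →* T) (E R : Subgroup H) : Prop extends Irr H A where
  res : Res φ E ⊤
  normal : R.Normal
  ker : R ≤ φ.ker
  ncz : ¬ R ≤ Cz E
  min : ∀ N, N ≤ R → N.Normal → N = R ∨ N ≤ Cz E

variable {E R : Subgroup H}

omit [Finite H] [Finite A] [Nontrivial A]

omit [NAS T] in
theorem Ctx.ne_bot (c : Ctx A φ E R) : R ≠ ⊥ := fun h => c.ncz (h ▸ bot_le)

theorem Ctx.comm_eq (c : Ctx A φ E R) : ⁅R, E⁆ = R := by
  have := c.normal
  have := c.res.nz.normal
  rcases c.min ⁅R, E⁆ (commutator_le_left R E) inferInstance with h | h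
  · exact h
  · exact absurd (le_Cz_of_perfect c.res.perfect h) c.ncz

theorem Ctx.le_of_le (c : Ctx A φ E R) {N : Subgroup H} (hN : Nz R N) (h : E ≤ N) : R ≤ N := by
  rw [← c.comm_eq]
  exact (commutator_mono le_rfl h).trans hN.comm_le_right

theorem Ctx.z_le (c : Ctx A φ E R) : R ⊓ Cz E ≤ Cz R := by
  have := c.normal
  have := c.res.nz.normal
  exact le_Cz_comm.1 (c.le_of_le (nz_normal _ _) (le_Cz_comm.1 inf_le_right))

omit [NAS T] in
theorem Ctx.not_full (c : Ctx A φ E R) : ¬ Full φ (Cz R) := fun h => by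
  have := c.normal
  exact c.ncz (le_Cz_comm.1 (c.res.min _ le_top h (nz_normal _ _)))

theorem Ctx.red (c : Ctx A φ E R) (hR : Red A φ) {B Y : Subgroup H} [B.Normal]
    (hY : MS A B Y) (h0 : Y ≠ ⊥) (h1 : Nz E Y) (h2 : Nz R Y) : Goal A φ := by
  have := c.normal
  have hL : Nz (normalizer (Y : Set H)) Y := nz_iff.2 le_rfl
  have hEL := nz_iff.1 h1
  have hRL := nz_iff.1 h2
  obtain ⟨a, ha, b, hb, h⟩ := hR (Fx A Y) (normalizer (Y : Set H))
    (fun h => h0 (c.eq_bot h)) (fun l hl a ha => hL.smul_mem_Fx hl ha) (by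
      intro K hK hz hf hle
      obtain ⟨a, ha, haY⟩ := hY.ex
      exact ha (c.fix_normal c.ne_bot
        ((c.le_of_le (hz.mono hRL) (c.res.min K le_top hf (hz.mono hEL))).trans (hle haY))))
  have key : ∀ a ∈ Fx A Y, a ≠ 1 → stabilizer H a ≤ normalizer (Y : Set H) := by
    intro a ha ha1
    rw [← nz_iff, ← hY.eq ha1 ha]
    exact (nz_normal _ _).inf (nz_self _)
  refine ⟨a, b, fun hf => h ?_⟩
  by_cases ha1 : a = 1
  · by_cases hb1 : b = 1
    · subst ha1 hb1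
      exact c.res.full.mono (le_inf (le_inf hEL fun k _ => smul_one k) fun k _ => smul_one k)
    · exact hf.mono (le_inf (le_inf (inf_le_right.trans (key b hb hb1)) inf_le_left) inf_le_right)
  · exact hf.mono (le_inf (le_inf (inf_le_left.trans (key a ha ha1)) inf_le_left) inf_le_right)

variable [Finite H] [Finite A] [Nontrivial A]

/-- the case of a nonabelian chief factor -/
theorem Ctx.case_na (c : Ctx A φ E R) (hS : Sch φ) (hIH : IH.{u} (Nat.card H) T)
    (hna : ¬ ⁅R, R⁆ ≤ R ⊓ Cz E) : Goal A φ := by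
  have := c.normal
  have := c.res.nz.normal
  set Z := R ⊓ Cz E with hZ
  have hZR : Z ≤ R := inf_le_left
  let π : H →* H ⧸ Z := QuotientGroup.mk' Z
  have hπ : Function.Surjective π := QuotientGroup.mk'_surjective Z
  have hker : π.ker = Z := QuotientGroup.ker_mk' Z
  let ψ : H ⧸ Z →* T := QuotientGroup.lift Z φ (hZR.trans c.ker)
  have hψ : ψ.comp π = φ := QuotientGroup.lift_comp_mk' _ _ _
  have hcm : (R.map π).comap π = R := by rw [comap_map_eq, hker, sup_eq_left.2 hZR]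
  have hcomm : ∀ X Y : Subgroup H, X.map π ≤ Cz (Y.map π) ↔ ⁅X, Y⁆ ≤ Z := fun X Y => by
    rw [← comm_eq_bot, ← map_commutator, Subgroup.map_eq_bot_iff, hker]
  have hM : MinNA (R.map π) := by
    refine ⟨c.normal.map π hπ, fun N hN hN1 => ?_, fun h => hna ((hcomm _ _).1 h)⟩
    have h1 : N.comap π ≤ R := (comap_mono hN).trans hcm.le
    rcases c.min _ h1 inferInstance with h | h
    · right; rw [← map_comap_eq_self_of_surjective hπ N, h]
    · left
      rw [← map_comap_eq_self_of_surjective hπ N, Subgroup.map_eq_bot_iff, hker]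
      exact le_inf h1 h
  have hC : ¬ Full ψ (Cz (R.map π)) := by
    intro h
    have := hM.normal
    rw [← map_comap_eq_self_of_surjective hπ (Cz (R.map π)), full_map, hψ] at h
    have h1 := c.res.min _ le_top h (nz_normal _ _)
    rw [← map_le_iff_le_comap, hcomm, commutator_comm, c.comm_eq] at h1
    exact c.ncz (h1.trans inf_le_right)
  have hSR : ∀ S, Comp (R.map π) S → S.comap π ≤ R := fun S hS =>
    (comap_mono hS.le).trans hcm.le
  obtain ⟨v, hv⟩ := c.exists_vec (R := R)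
    {L | ∃ S, Comp (R.map π) S ∧ ⁅S.comap π, S.comap π⁆ = L}
    (by
      rintro _ ⟨S, hS, rfl⟩
      exact (commutator_le_self _).trans (hSR S hS))
    (by
      rintro _ ⟨S, hS, rfl⟩
      have : Nz R (S.comap π) := fun l hl a ha => by
        rw [mem_comap, map_mul, map_mul, map_inv]
        exact hS.nz _ (mem_map_of_mem π hl) _ ha
      exact this.comm this)
    (by
      rintro _ ⟨S, hS, rfl⟩ h
      refine hM.not_le_Cz hS ?_
      rw [← map_comap_eq_self_of_surjective hπ S, hcomm, h]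
      exact bot_le)
    (by
      rintro _ ⟨S, hS, rfl⟩ _ ⟨S', hS', rfl⟩ hne
      have h1 : S ≠ S' := fun h => hne (by rw [h])
      have h2 : ⁅S.comap π, S'.comap π⁆ ≤ Cz (S.comap π) := by
        refine le_trans ?_ (c.z_le.trans (Cz_anti (hSR S hS)))
        rw [← hcomm, map_comap_eq_self_of_surjective hπ, map_comap_eq_self_of_surjective hπ]
        exact hS.le_Cz hS' h1
      have h3 : ⁅⁅S.comap π, S.comap π⁆, S'.comap π⁆ = ⊥ :=
        commutator_commutator_eq_bot_of_rotate (comm_eq_bot.2 h2)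
          (by rw [commutator_comm (S'.comap π)]; exact comm_eq_bot.2 h2)
      exact (comm_eq_bot.1 h3).trans (Cz_anti (commutator_le_self _)))
  obtain ⟨_, ⟨x, hx, rfl⟩, h⟩ := hM.main (M₀ := (R ⊓ stabilizer H v).map π)
    (L := (stabilizer H v).map π) (Sch.of_comp_surj π hπ (hψ ▸ hS))
    (by
      rintro _ ⟨r, hr, rfl⟩
      exact c.ker hr)
    hC
    (fun L' _ => hIH.all (Sch.of_comp_surj π hπ (hψ ▸ hS))
      (Nat.card_le_card_of_surjective π hπ) L')
    (map_mono inf_le_left)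
    (by
      rintro _ ⟨l, hl, rfl⟩ _ ⟨a, ha, rfl⟩
      exact ⟨_, ((nz_normal _ R).inf (nz_self _)) l hl a ha, by simp⟩)
    (by
      intro S hS hle
      refine hv _ ⟨S, hS, rfl⟩ (commutator_le.2 fun a ha b hb => ?_)
      obtain ⟨a', ha', h1⟩ := hle ha
      obtain ⟨b', hb', h2⟩ := hle hb
      have h3 : a'⁻¹ * a ∈ Cz R := c.z_le (QuotientGroup.eq.1 h1)
      have h4 : b'⁻¹ * b ∈ Cz R := c.z_le (QuotientGroup.eq.1 h2)
      have c1 : Commute b (a'⁻¹ * a) := mem_Cz.1 h3 b (hSR S hS hb)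
      have c2 : Commute a' (b'⁻¹ * b) := mem_Cz.1 h4 a' ha'.1
      have h5 : ⁅a, b⁆ = ⁅a', b'⁆ := by
        calc ⁅a, b⁆ = a' * ((a'⁻¹ * a) * b * (a'⁻¹ * a)⁻¹) * a'⁻¹ * b⁻¹ := by
              rw [commutatorElement_def]; group
          _ = a' * b * a'⁻¹ * b⁻¹ := by rw [← c1.eq]; group
          _ = a' * b' * ((b'⁻¹ * b) * a'⁻¹ * (b'⁻¹ * b)⁻¹) * b'⁻¹ := by group
          _ = _ := by rw [← c2.inv_left.eq, commutatorElement_def]; group
      rw [h5]
      exact commutator_le_self _ (commutator_mem_commutator ha'.2 hb'.2))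
  refine ⟨v, x • v, fun hf => h ((stabilizer H v ⊓ stabilizer H (x • v)).map π)
    (map_mono inf_le_left) ?_ (by rwa [full_map, hψ])⟩
  rintro _ ⟨g, ⟨hg1, hg2⟩, rfl⟩
  refine ⟨x⁻¹ * (g * x * g⁻¹), ⟨R.mul_mem (R.inv_mem hx) (c.normal.conj_mem x hx g), ?_⟩, by simp⟩
  rw [← smul_stab] at hg2
  have h1 := (stabilizer H v).mul_mem (mem_smul.1 hg2) (inv_mem hg1)
  simpa [mul_assoc] using h1

end Pool.Agent.P.MP_870b40_al
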