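import Pool.Agent.P.MP_870b40_al.AffA

namespace Pool.Agent.P.MP_870b40_al

open Subgroup MulAction
open scoped commutatorElement

universe u v w

variable {H : Type u} [Group H]

theorem comm_pow_left {x y : H} (h : Commute ⁅x, y⁆ x) (n : ℕ) : ⁅x ^ n, y⁆ = ⁅x, y⁆ ^ n := by
  induction n with
  | zero => simp
  | succ n ih =>
    rw [pow_succ', commutatorElement_mul_left_eq_conj_mul, ih, ← (h.pow_left n).eq, pow_succ]
    group

theorem mul_pow_class_two {a b : H} (ha : Commute ⁅b, a⁆ a) (hb : Commute ⁅b, a⁆ b) (n : ℕ) :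
    (a * b) ^ n = a ^ n * b ^ n * ⁅b, a⁆ ^ n.choose 2 := by
  induction n with
  | zero => simp
  | succ n ih =>
    have h1 : b ^ n * a = ⁅b, a⁆ ^ n * a * b ^ n := by
      rw [← comm_pow_left hb, commutatorElement_def]; group
    have h2 := ((ha.mul_right hb).pow_left (n.choose 2)).eq
    have h3 := ((ha.mul_right (hb.pow_right (n + 1))).pow_left n).eq
    have h4 : (n + 1).choose 2 = n + n.choose 2 := by
      rw [Nat.choose_succ_succ' n 1, Nat.choose_one_right]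
    rw [pow_succ, ih, mul_assoc, h2, h4, pow_add ⁅b, a⁆]
    calc a ^ n * b ^ n * (a * b * ⁅b, a⁆ ^ n.choose 2)
        = a ^ n * (b ^ n * a) * b * ⁅b, a⁆ ^ n.choose 2 := by simp only [mul_assoc]
      _ = a ^ n * (⁅b, a⁆ ^ n * (a * b ^ (n + 1))) * ⁅b, a⁆ ^ n.choose 2 := by
          rw [h1, pow_succ]; simp only [mul_assoc]
      _ = _ := by rw [h3, pow_succ a]; simp only [mul_assoc]

/-- elements whose `r`-th power lies in `N` -/
def powSub (R N : Subgroup H) [N.Normal] (h : ⁅R, R⁆ ≤ N) (r : ℕ) : Subgroup H where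
  carrier := {x | x ∈ R ∧ x ^ r ∈ N}
  one_mem' := ⟨R.one_mem, by simp⟩
  inv_mem' := fun {x} hx => ⟨R.inv_mem hx.1, by simpa using hx.2⟩
  mul_mem' := fun {x y} hx hy => by
    refine ⟨R.mul_mem hx.1 hy.1, ?_⟩
    have h1 : Commute (QuotientGroup.mk' N x) (QuotientGroup.mk' N y) := by
      rw [← commutatorElement_eq_one_iff_commute, ← map_commutatorElement]
      exact (QuotientGroup.eq_one_iff _).2 (h (commutator_mem_commutator hx.1 hy.1))
    rw [← QuotientGroup.eq_one_iff]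
    change QuotientGroup.mk' N ((x * y) ^ r) = 1
    rw [map_pow, map_mul, h1.mul_pow, ← map_pow, ← map_pow]
    have h2 : QuotientGroup.mk' N (x ^ r) = 1 := (QuotientGroup.eq_one_iff _).2 hx.2
    have h3 : QuotientGroup.mk' N (y ^ r) = 1 := (QuotientGroup.eq_one_iff _).2 hy.2
    rw [h2, h3, mul_one]

theorem mem_powSub {R N : Subgroup H} [N.Normal] {h : ⁅R, R⁆ ≤ N} {r : ℕ} {x : H} :
    x ∈ powSub R N h r ↔ x ∈ R ∧ x ^ r ∈ N := Iff.rfl

instance powSub_normal {R N : Subgroup H} [hR : R.Normal] [hN : N.Normal] {h : ⁅R, R⁆ ≤ N}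
    {r : ℕ} : (powSub R N h r).Normal :=
  ⟨fun x hx g => ⟨hR.conj_mem x hx.1 g, by rw [conj_pow]; exact hN.conj_mem _ hx.2 g⟩⟩

/-- elements fixing a coset -/
def kst (W B : Subgroup H) (h : Nz W B) (y : H) : Subgroup H where
  carrier := {e | e ∈ W ∧ y⁻¹ * (e * y * e⁻¹) ∈ B}
  one_mem' := ⟨W.one_mem, by simp⟩
  mul_mem' := fun {a b} ha hb => ⟨W.mul_mem ha.1 hb.1, by
    have := B.mul_mem ha.2 (h a ha.1 _ hb.2)
    convert this using 1
    group⟩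
  inv_mem' := fun {a} ha => ⟨W.inv_mem ha.1, by
    have := h _ (W.inv_mem ha.1) _ (B.inv_mem ha.2)
    convert this using 1
    group⟩

variable {A : Type w} [CommGroup A] [MulDistribMulAction H A] {T : Type v} [Group T]

theorem MS.le_zpowers [Nontrivial A] {B : Subgroup H} (h : MS A B ⊥) (hB : B ≤ Cz B) {r : ℕ}
    (hr : r.Prime) (hBr : ∀ y ∈ B, y ^ r = 1) (hA : ∀ a : A, a ^ r = 1 → a = 1) {z : H}
    (hz : z ∈ B) (hz1 : z ≠ 1) : B = zpowers z := by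
  refine le_antisymm (fun x hx => ?_) (zpowers_le.2 hz)
  obtain ⟨a, -, ha, h1 | ⟨i, h1⟩⟩ := exists_fixed (A := A) (U := ⊤) (mem_Cz.1 (hB hz) x hx) hr
    (hBr x hx) (hBr z hz) hA top_ne_bot (fun _ _ => mem_top _) (fun _ _ => mem_top _)
  · exact absurd (mem_bot.1 (h.max a ha bot_le ⟨hz, h1⟩)) hz1
  · have h2 := mem_bot.1 (h.max a ha bot_le ⟨B.mul_mem hx (B.pow_mem hz i), h1⟩)
    rw [eq_inv_of_mul_eq_one_left h2]
    exact inv_mem (pow_mem (mem_zpowers z) i)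

variable [Finite H] [Finite A] [Nontrivial A] [NAS T] {φ : H →* T} {E R : Subgroup H}

omit [Finite A] [Nontrivial A] in
theorem Ctx.exists_prime (c : Ctx A φ E R) (hb : ⁅R, R⁆ ≤ R ⊓ Cz E) :
    ∃ r : ℕ, r.Prime ∧ ∀ x ∈ R, x ^ r ∈ ⁅R, R⁆ := by
  have := c.normal
  have := c.res.nz.normal
  obtain ⟨x, hx, hx'⟩ := SetLike.not_le_iff_exists.1 c.ncz
  let π := QuotientGroup.mk' (R ⊓ Cz E)
  have h1 : orderOf (π x) ≠ 1 := by
    rw [Ne, orderOf_eq_one_iff]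
    exact fun h => hx' ((QuotientGroup.eq_one_iff _).1 h).2
  have hr := Nat.minFac_prime h1
  set r := (orderOf (π x)).minFac
  have h2 := orderOf_pow_orderOf_div (orderOf_pos (π x)).ne' (Nat.minFac_dvd (orderOf (π x)))
  rw [← map_pow] at h2
  have h3 : ∀ y ∈ R, y ^ r ∈ R ⊓ Cz E := by
    rcases c.min (powSub R _ hb r) (fun _ h => h.1) inferInstance with h | h
    · intro y hy
      rw [← h] at hy
      exact hy.2
    · exfalso
      have h4 : x ^ (orderOf (π x) / r) ∈ powSub R _ hb r := by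
        refine ⟨R.pow_mem hx _, (QuotientGroup.eq_one_iff _).1 ?_⟩
        change π (_ ^ r) = 1
        rw [map_pow]
        exact orderOf_dvd_iff_pow_eq_one.1 (dvd_of_eq h2)
      have h5 : π (x ^ (orderOf (π x) / r)) = 1 := (QuotientGroup.eq_one_iff _).2 ⟨h4.1, h h4⟩
      rw [h5, orderOf_one] at h2
      exact hr.one_lt.ne h2
  refine ⟨r, hr, fun y hy => ?_⟩
  have h4 : ⁅R, E⁆ ≤ powSub R ⁅R, R⁆ le_rfl r := by
    refine commutator_le.2 fun a ha e he => ?_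
    have h5 : e * a⁻¹ * e⁻¹ ∈ R := c.normal.conj_mem _ (R.inv_mem ha) e
    have h6 : ⁅a, e⁆ = a * (e * a⁻¹ * e⁻¹) := by rw [commutatorElement_def]; group
    refine ⟨h6 ▸ R.mul_mem ha h5, (QuotientGroup.eq_one_iff _).1 ?_⟩
    have h7 : Commute (QuotientGroup.mk' ⁅R, R⁆ a) (QuotientGroup.mk' ⁅R, R⁆ (e * a⁻¹ * e⁻¹)) := by
      rw [← commutatorElement_eq_one_iff_commute, ← map_commutatorElement]
      exact (QuotientGroup.eq_one_iff _).2 (commutator_mem_commutator ha h5)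
    change QuotientGroup.mk' ⁅R, R⁆ (⁅a, e⁆ ^ r) = 1
    rw [h6, map_pow, map_mul, h7.mul_pow, ← map_pow, ← map_pow, ← map_mul, conj_pow,
      mem_Cz.1 (h3 _ (R.inv_mem ha)).2 e he]
    simp
  rw [c.comm_eq] at h4
  exact (h4 hy).2

omit [Finite H] [Finite A] [Nontrivial A] in
theorem Ctx.comm_pow (c : Ctx A φ E R) (hb : ⁅R, R⁆ ≤ R ⊓ Cz E) {r : ℕ}
    (hr : ∀ x ∈ R, x ^ r ∈ ⁅R, R⁆) {x y : H} (hx : x ∈ R) (hy : y ∈ R) : ⁅x, y⁆ ^ r = 1 := by
  rw [← comm_pow_left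
    (Commute.symm (mem_Cz.1 (c.z_le (hb (commutator_mem_commutator hx hy))) x hx)),
    commutatorElement_eq_one_iff_mul_comm]
  exact (mem_Cz.1 (c.z_le (hb (hr x hx))) y hy).symm

omit [NAS T] [Finite H] [Nontrivial A] in
theorem Ctx.no_torsion (c : Ctx A φ E R) {r : ℕ} (hr : r.Prime) (h : ∀ x ∈ R, (x ^ r) ^ r = 1)
    (a : A) (ha : a ^ r = 1) : a = 1 := by
  have := c.normal
  have := Fact.mk hr
  by_contra ha1
  have h1 : IsPGroup r R := fun x => ⟨2, Subtype.ext (by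
    rw [pow_two, pow_mul]; exact h x x.2)⟩
  have h2 : r ∣ Nat.card A := orderOf_eq_prime ha ha1 ▸ orderOf_dvd_natCard a
  obtain ⟨b, hb, hb1⟩ := h1.exists_fixed_point_of_prime_dvd_card_of_fixed_point A h2
    (a := 1) (fun m => smul_one m)
  exact hb1 (c.fix_normal c.ne_bot (fun k hk => hb ⟨k, hk⟩)).symm

omit [Finite A] [Nontrivial A] in
/-- a moved maximal stabiliser gives a good vector -/
theorem exists_vec_of_moved {E' L B : Subgroup H} (hE : Res φ E' L) (hP : PP φ L) (hLB : Nz L B)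
    (hB : B ≤ Cz B) {r : ℕ} (hr : r.Prime) (hBr : ∀ y ∈ B, y ^ r = 1)
    (hA : ∀ a : A, a ^ r = 1 → a = 1) {Y : Subgroup H} (hY : MS A B Y) (hn : ¬ Nz E' Y) :
    ∃ w : A, ¬ Full φ (L ⊓ stabilizer H w) := by
  obtain ⟨e, he, hne⟩ : ∃ e ∈ E', e • Y ≠ Y := by
    by_contra h
    push Not at h
    exact hn (nz_of_smul h)
  obtain ⟨F, hF1, -, hF⟩ := exists_set hE hP {Y | MS A B Y}
    (fun l hl Y hY => by simpa [hLB.smul_eq hl] using MS.smul hY l) hY he hne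
  obtain ⟨w, hw⟩ := exists_code hB hr hBr hA F hF1
  exact ⟨w, hF _ inf_le_left fun h hh => hw h (hLB.smul_eq hh.1) hh.2⟩

theorem Ctx.case_ab (c : Ctx A φ E R) (hP : PP φ ⊤) (hR : Red A φ) (hab : ⁅R, R⁆ = ⊥) :
    Goal A φ := by
  have := c.normal
  have hb : ⁅R, R⁆ ≤ R ⊓ Cz E := hab ▸ bot_le
  obtain ⟨r, hr, h1⟩ := c.exists_prime hb
  have h2 : ∀ x ∈ R, x ^ r = 1 := fun x hx => mem_bot.1 (hab ▸ h1 x hx)
  have hA := c.no_torsion hr fun x hx => by rw [h2 x hx, one_pow]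
  have hRR := comm_eq_bot.1 hab
  obtain ⟨Y, hY⟩ := exists_MS (A := A) R
  by_cases hz : Nz E Y
  · by_cases h0 : Y = ⊥
    · exfalso
      subst h0
      obtain ⟨z, hz1, hz2⟩ := (R.bot_or_exists_ne_one).resolve_left c.ne_bot
      have h3 := hY.le_zpowers hRR hr h2 hA hz1 hz2
      have h4 := comm_centralizes (K := E) (y := z) (h3 ▸ nz_normal E R)
      rw [← h3] at h4
      exact c.ncz (le_Cz_comm.1 (c.res.perfect.trans h4))
    · exact c.red hR hY h0 hz (nz_of_le_Cz (hRR.trans (Cz_anti hY.le)))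
  · obtain ⟨w, hw⟩ := exists_vec_of_moved c.res hP (nz_normal _ R) hRR hr h2 hA hY hz
    exact ⟨w, w, by simpa using hw⟩

omit [Finite A] [Nontrivial A] in
/-- the prime two: at most three nontrivial cosets -/
theorem exists_full_two {W B F : Subgroup H} (hW : Full φ W) (hWB : Nz W B) (hWF : Nz W F)
    {z : H} (hz : z ∈ B) (hz1 : z ≠ 1) (hzF : z ∈ Cz F) (hz2 : z * z = 1)
    (h : ∀ y ∈ F, y ∉ B → y * y = z) :
    ∃ K, K ≤ W ∧ Full φ K ∧ ∀ e ∈ K, ∀ y ∈ F, y⁻¹ * (e * y * e⁻¹) ∈ B := by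
  classical
  have h1 : ∀ x ∈ F, x ∉ B → ∀ y ∈ F, y ∉ B → x⁻¹ * y ∉ B → ⁅x, y⁆ = z := by
    intro x hx hxB y hy hyB hxy
    have h2 := h _ (F.mul_mem (F.inv_mem hx) hy) hxy
    have h3 : ⁅x, y⁆ = (x * x) * (x⁻¹ * y * (x⁻¹ * y)) * (y * y)⁻¹ := by
      rw [commutatorElement_def]; group
    rw [h3, h2, h x hx hxB, h y hy hyB]
    group
  have h2 : ∀ x ∈ F, x ∉ B → ∀ y ∈ F, y ∉ B → x⁻¹ * y ∉ B → ∀ w ∈ F, w ∉ B → x⁻¹ * w ∉ B →
      y⁻¹ * w ∉ B → (x * y)⁻¹ * w ∈ B := by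
    intro x hx hxB y hy hyB hxy w hw hwB hxw hyw
    by_contra h3
    have h4 : x * y ∉ B := fun h4 => hxy (by
      have := B.mul_mem (B.inv_mem hz) h4
      rw [← h x hx hxB] at this
      simpa [mul_assoc] using this)
    have h5 := h1 _ (F.mul_mem hx hy) h4 w hw hwB h3
    rw [commutatorElement_mul_left_eq_conj_mul, h1 x hx hxB w hw hwB hxw,
      h1 y hy hyB w hw hwB hyw, mem_Cz.1 hzF x hx, mul_inv_cancel_right, hz2] at h5
    exact hz1 h5.symm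
  let Q : Finset (H ⧸ B) :=
    (Set.toFinite {y | y ∈ F ∧ y ∉ B}).toFinset.image QuotientGroup.mk
  have hQ : ∀ q, q ∈ Q ↔ ∃ y, (y ∈ F ∧ y ∉ B) ∧ (y : H ⧸ B) = q := fun q => by simp [Q]
  have hQ3 : Q.card ≤ 3 := by
    by_contra h3
    obtain ⟨a, b, c, d, ha, hb, hc, hd, hab, hac, had, hbc, hbd, hcd⟩ :=
      Finset.three_lt_card_iff.1 (not_le.1 h3)
    obtain ⟨a, ha', rfl⟩ := (hQ _).1 ha
    obtain ⟨b, hb', rfl⟩ := (hQ _).1 hb
    obtain ⟨c, hc', rfl⟩ := (hQ _).1 hc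
    obtain ⟨d, hd', rfl⟩ := (hQ _).1 hd
    rw [Ne, QuotientGroup.eq] at hab hac had hbc hbd hcd
    have h4 := h2 a ha'.1 ha'.2 b hb'.1 hb'.2 hab c hc'.1 hc'.2 hac hbc
    have h5 := h2 a ha'.1 ha'.2 b hb'.1 hb'.2 hab d hd'.1 hd'.2 had hbd
    refine hcd ?_
    have := B.mul_mem (B.inv_mem h4) h5
    convert this using 1
    group
  have key : ∀ P : Finset H, (∀ y ∈ P, y ∈ F) →
      ∃ K, K ≤ W ∧ Full φ K ∧ ∀ e ∈ K, ∀ y ∈ P, y⁻¹ * (e * y * e⁻¹) ∈ B := by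
    intro P
    induction P using Finset.induction_on with
    | empty => exact fun _ => ⟨W, le_rfl, hW, by simp⟩
    | insert y P hy ih =>
      intro hP
      obtain ⟨K, hK1, hK2, hK3⟩ := ih fun y' hy' => hP y' (Finset.mem_insert_of_mem hy')
      have hyF := hP y (Finset.mem_insert_self _ _)
      refine ⟨kst K B (hWB.mono hK1) y, fun e he => hK1 he.1, ?_, fun e he y' hy' => ?_⟩
      · by_cases hyB : y ∈ B
        · exact hK2.mono fun e he => ⟨he, B.mul_mem (B.inv_mem hyB) (hWB e (hK1 he) y hyB)⟩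
        · refine hK2.of_label Q hQ3 (fun k => ((k * y * k⁻¹ : H) : H ⧸ B))
            (fun k hk => (hQ _).2 ⟨_, ⟨hWF k (hK1 hk) y hyF, fun h3 => hyB ?_⟩, rfl⟩)
            fun k hk k' hk' h3 => ⟨K.mul_mem (K.inv_mem hk) hk', ?_⟩
          · simpa [mul_assoc] using hWB _ (W.inv_mem (hK1 hk)) _ h3
          · have h4 := hWB _ (W.inv_mem (hK1 hk)) _ (QuotientGroup.eq.1 h3)
            convert h4 using 1
            group
      · rcases Finset.mem_insert.1 hy' with rfl | h3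
        · exact he.2
        · exact hK3 e he.1 y' h3
  obtain ⟨K, hK1, hK2, hK3⟩ := key (Set.toFinite (F : Set H)).toFinset (by simp)
  exact ⟨K, hK1, hK2, fun e he y hy => hK3 e he y (by simpa using hy)⟩

theorem Ctx.case_symp (c : Ctx A φ E R) (hP : ∀ L, PP φ L) (hR : Red A φ)
    (hb : ⁅R, R⁆ ≤ R ⊓ Cz E) (hab : ⁅R, R⁆ ≠ ⊥) : Goal A φ := by
  have := c.normal
  have := c.res.nz.normal
  obtain ⟨r, hr, h1⟩ := c.exists_prime hb
  have hZ : ⁅R ⊓ Cz E, R ⊓ Cz E⁆ ≤ ⊥ :=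
    (comm_eq_bot.2 (c.z_le.trans (Cz_anti inf_le_left))).le
  set Ω := powSub (R ⊓ Cz E) ⊥ hZ r with hΩ
  have hΩZ : Ω ≤ R ⊓ Cz E := fun _ h => h.1
  have hΩR : Ω ≤ R := hΩZ.trans inf_le_left
  have hΩC : Ω ≤ Cz R := hΩZ.trans c.z_le
  have hΩr : ∀ y ∈ Ω, y ^ r = 1 := fun y h => mem_bot.1 h.2
  have hR' : ⁅R, R⁆ ≤ Ω := commutator_le.2 fun x hx y hy =>
    ⟨hb (commutator_mem_commutator hx hy), mem_bot.2 (c.comm_pow hb h1 hx hy)⟩
  have hA := c.no_torsion hr fun x hx => hΩr _ (hR' (h1 x hx))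
  obtain ⟨Y, hY⟩ := exists_MS (A := A) Ω
  by_cases h0 : Y = ⊥
  swap
  · exact c.red hR hY h0 (nz_of_le_Cz (le_Cz_comm.1 (hY.le.trans (hΩZ.trans inf_le_right))))
      (nz_of_le_Cz (le_Cz_comm.1 (hY.le.trans hΩC)))
  subst h0
  obtain ⟨z, hz, hz1⟩ := (Ω.bot_or_exists_ne_one).resolve_left fun h => hab (le_bot_iff.1 (h ▸ hR'))
  have hΩz := hY.le_zpowers (hΩC.trans (Cz_anti hΩR)) hr hΩr hA hz hz1
  obtain ⟨C, hC⟩ := exists_MS (A := A) R
  obtain ⟨v, hv1, hv⟩ := hC.ex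
  by_cases hL : Full φ (stabilizer H v)
  swap
  · exact ⟨v, v, by simpa using hL⟩
  obtain ⟨E', hE'⟩ := exists_res hL
  have hLC : Nz (stabilizer H v) C := by
    rw [← hC.eq hv1 hv]
    exact (nz_normal _ _).inf (nz_self _)
  have hCΩ : ∀ x ∈ C, x ∈ Ω → x = 1 := fun x hx hx' =>
    mem_bot.1 (hY.max v hv1 bot_le ⟨hx', hv hx⟩)
  have hCC : C ≤ Cz C := comm_eq_bot.1 (eq_bot_iff.2 fun x hx => mem_bot.2
    (hCΩ x (commutator_le_self C hx) (hR' (commutator_mono hC.le hC.le hx))))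
  have hCr : ∀ x ∈ C, x ^ r = 1 := fun x hx => hCΩ _ (C.pow_mem hx r) (hR' (h1 x (hC.le hx)))
  set B := Ω ⊔ C with hB
  have hBR : B ≤ R := sup_le hΩR hC.le
  have hBC : B ≤ Cz C := sup_le (hΩC.trans (Cz_anti hC.le)) hCC
  have hBB : B ≤ Cz B := sup_le (hΩC.trans (Cz_anti hBR))
    (le_Cz_comm.1 hBC)
  have hBr : ∀ y ∈ B, y ^ r = 1 := by
    intro y hy
    obtain ⟨a, ha, b, hb, rfl⟩ := (nz_normal C Ω).mem_sup hy
    rw [(Commute.symm (mem_Cz.1 (hΩC ha) b (hC.le hb))).mul_pow, hΩr a ha, hCr b hb, mul_one]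
  have hRB : Nz R B := nz_of_comm_le ((commutator_mono le_rfl hBR).trans (hR'.trans le_sup_left))
  have hLB : Nz (stabilizer H v) B := (nz_normal _ _).sup hLC
  have hCB : MS A B C := hC.restrict le_sup_right hBR
  by_cases hmv : ∀ x ∈ R, Nz E' (x • C)
  swap
  · push Not at hmv
    obtain ⟨x, hx, hn⟩ := hmv
    obtain ⟨w, hw⟩ := exists_vec_of_moved hE' (hP _) hLB hBB hr hBr hA
      (Y := x • C) (by simpa [hRB.smul_eq hx] using hCB.smul x) hn
    exact ⟨v, w, hw⟩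
  exfalso
  have hE'Ω : E' ≤ Cz Ω := by
    have h2 := comm_centralizes (K := E') (y := z) (hΩz ▸ nz_normal E' Ω)
    rw [← hΩz] at h2
    exact hE'.perfect.trans h2
  have hE'C : E' ≤ Cz C := by
    intro e he
    rw [mem_Cz]
    intro k hk
    have h2 : k⁻¹ * (e * k * e⁻¹) ∈ C := C.mul_mem (C.inv_mem hk) (hLC e (hE'.le he) k hk)
    have h3 : k⁻¹ * (e * k * e⁻¹) ∈ Cz R := by
      rw [mem_Cz]
      intro x hx
      have h4 : x⁻¹ * k * x⁻¹⁻¹ ∈ x⁻¹ • C := smul_mem_smul.2 hk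
      have h5 := (x⁻¹ • C).mul_mem ((x⁻¹ • C).inv_mem h4)
        (hmv _ (R.inv_mem hx) e he _ h4)
      have h6 : ⁅x⁻¹, k⁆ ∈ Ω := hR' (commutator_mem_commutator (R.inv_mem hx) (hC.le hk))
      have h7 := mem_Cz.1 (hE'Ω he) _ h6
      have h8 := mem_Cz.1 (hΩC h6) _ (c.normal.conj_mem k (hC.le hk) e)
      have h9 := mem_Cz.1 (hΩC h6) _ (hC.le hk)
      have h10 : (x⁻¹ * k * x⁻¹⁻¹)⁻¹ * (e * (x⁻¹ * k * x⁻¹⁻¹) * e⁻¹) = k⁻¹ * (e * k * e⁻¹) := by
        have h11 : x⁻¹ * k * x⁻¹⁻¹ = ⁅x⁻¹, k⁆ * k := by rw [commutatorElement_def]; group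
        rw [h11, ← mul_assoc e, ← h7]
        group
      rw [h10, mem_smul, inv_inv] at h5
      set d := k⁻¹ * (e * k * e⁻¹)
      have h11 : ⁅x, d⁆ = 1 := hCΩ _ (C.mul_mem h5 (C.inv_mem h2))
        (hR' (commutator_mem_commutator hx (hC.le h2)))
      exact commutatorElement_eq_one_iff_mul_comm.1 h11
    have h4 : R ⊓ Cz R ≤ Cz E := by
      rcases c.min (R ⊓ Cz R) inf_le_left inferInstance with h | h
      · exact absurd (comm_eq_bot.2 (inf_eq_left.1 h)) hab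
      · exact h
    have h5 := hCΩ _ h2 ⟨⟨hC.le h2, h4 ⟨hC.le h2, h3⟩⟩, mem_bot.2 (hCr _ h2)⟩
    rw [inv_mul_eq_one, eq_mul_inv_iff_mul_eq] at h5
    exact h5
  set F := R ⊓ Cz C with hF
  have hLF : Nz (stabilizer H v) F := (nz_normal _ _).inf hLC.cz
  have hRF : ⁅R, E'⁆ ≤ F := by
    refine commutator_le.2 fun x hx e he => ⟨?_, mem_Cz.2 fun k hk => ?_⟩
    · exact commutator_le_left R ⊤ (commutator_mem_commutator hx (mem_top e))
    · have h2 : ⁅x⁻¹, k⁆ ∈ Ω := hR' (commutator_mem_commutator (R.inv_mem hx) (hC.le hk))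
      have c1 : Commute ⁅x⁻¹, k⁆ e := mem_Cz.1 (hE'Ω he) _ h2
      have c2 : Commute k e := mem_Cz.1 (hE'C he) _ hk
      have c3 : Commute (x⁻¹ * k * x) e := by
        have h11 : x⁻¹ * k * x = ⁅x⁻¹, k⁆ * k := by rw [commutatorElement_def]; group
        rw [h11]; exact c1.mul_left c2
      calc k * ⁅x, e⁆ = x * (x⁻¹ * k * x * e) * x⁻¹ * e⁻¹ := by
            rw [commutatorElement_def]; group
        _ = x * e * x⁻¹ * (k * e⁻¹) := by rw [c3.eq]; group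
        _ = _ := by rw [c2.inv_right.eq, commutatorElement_def]; group
  have hFB : ∀ y ∈ F, y ^ r = 1 → y ∈ B := by
    intro y hy hyr
    obtain ⟨a, ha, ha1, h2 | ⟨i, h2⟩⟩ := exists_fixed (A := A) (U := Fx A C)
      (mem_Cz.1 (hΩC hz) y hy.1) hr hyr (hΩr z hz) hA
      (fun h => hv1 (mem_bot.1 (h ▸ (hv : v ∈ Fx A C))))
      (fun a ha => (nz_of_le_Cz le_rfl).smul_mem_Fx hy.2 ha)
      (fun a ha => (nz_of_le_Cz le_rfl).smul_mem_Fx (hBC (mem_sup_left hz)) ha)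
    · exact absurd (mem_bot.1 (hY.max a ha1 bot_le ⟨hz, h2⟩)) hz1
    · have h3 := hC.max a ha1 ha ⟨R.mul_mem hy.1 (R.pow_mem (hΩR hz) i), h2⟩
      exact (B.mul_mem_cancel_right (mem_sup_left (Ω.pow_mem hz i))).1 (mem_sup_right h3)
  obtain ⟨K₁, hK1, hK2, hK3⟩ :
      ∃ K, K ≤ E' ∧ Full φ K ∧ ∀ e ∈ K, ∀ y ∈ F, y⁻¹ * (e * y * e⁻¹) ∈ B := by
    rcases hr.eq_two_or_odd' with h2 | h2
    · subst h2
      have hz2 : z * z = 1 := by rw [← pow_two]; exact hΩr z hz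
      refine exists_full_two hE'.full (hLB.mono hE'.le) (hLF.mono hE'.le) (mem_sup_left hz) hz1
        (Cz_anti inf_le_left (hΩC hz)) hz2 fun y hy hyB => ?_
      have h3 : y ^ 2 ∈ zpowers z := hΩz ▸ hR' (h1 y hy.1)
      have h4 : y ^ 2 ≠ 1 := fun h => hyB (hFB y hy h)
      rw [← pow_two]
      obtain ⟨n, hn⟩ := (Submonoid.mem_powers_iff _ _).1 (mem_powers_iff_mem_zpowers.2 h3)
      rw [← hn] at h4 ⊢
      rcases Nat.even_or_odd' n with ⟨k, rfl | rfl⟩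
      · exact absurd (by rw [pow_mul, pow_two, hz2, one_pow]) h4
      · rw [pow_succ, pow_mul, pow_two, hz2, one_pow, one_mul]
    · refine ⟨E', le_rfl, hE'.full, fun e he y hy => ?_⟩
      have h3 : e * y * e⁻¹ ∈ F := hLF e (hE'.le he) y hy
      refine hFB _ (F.mul_mem (F.inv_mem hy) h3) ?_
      have h4 : ⁅e * y * e⁻¹, y⁻¹⁆ ∈ Ω := hR' (commutator_mem_commutator h3.1 (R.inv_mem hy.1))
      obtain ⟨k, hk⟩ := hr.dvd_choose_self (k := 2) two_ne_zero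
        (lt_of_le_of_ne hr.two_le fun h => by rw [← h] at h2; exact absurd h2 (by decide))
      rw [mul_pow_class_two (Commute.symm (mem_Cz.1 (hΩC h4) _ (R.inv_mem hy.1)))
        (Commute.symm (mem_Cz.1 (hΩC h4) _ h3.1)), hk, pow_mul, hΩr _ h4, one_pow, mul_one,
        conj_pow, ← mem_Cz.1 (hE'Ω he) _ (hR' (h1 y hy.1))]
      simp
  obtain ⟨K, hK⟩ := exists_res hK2
  have hKE : K ≤ E' := hK.le.trans hK1
  have hBK : B ≤ Cz K := sup_le (le_Cz_comm.1 (hKE.trans hE'Ω)) (le_Cz_comm.1 (hKE.trans hE'C))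
  have hFK : F ≤ Cz K := le_Cz_of_perfect hK.perfect (le_trans (commutator_le.2 fun y hy e he => by
    have := hK3 e (hK.le he) _ (F.inv_mem hy)
    rw [commutatorElement_def]
    simpa [mul_assoc] using this) hBK)
  have hRK : R ≤ Cz K :=
    le_Cz_of_perfect hK.perfect (((commutator_mono le_rfl hKE).trans hRF).trans hFK)
  exact c.not_full (hK.full.mono (le_Cz_comm.1 hRK))

/-- the affine case -/
theorem Irr.goal (hI : Irr H A) (hS : Sch φ) (hIH : IH.{u} (Nat.card H) T) (hR : Red A φ) :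
    Goal A φ := by
  by_cases hf : Full φ ⊤
  swap
  · exact ⟨1, 1, fun h => hf (h.mono le_top)⟩
  obtain ⟨E, hE⟩ := exists_res hf
  by_cases h : φ.ker ≤ Cz E
  · exact hI.case_central hE h
  obtain ⟨R, ⟨h1, h2, h3⟩, hmin⟩ :=
    wellFounded_lt.has_min {R : Subgroup H | R.Normal ∧ R ≤ φ.ker ∧ ¬ R ≤ Cz E}
      ⟨φ.ker, inferInstance, le_rfl, h⟩
  have c : Ctx A φ E R := by
    refine ⟨hI, hE, h1, h2, h3, fun N hN hN1 => ?_⟩
    by_contra h4
    push Not at h4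
    exact hmin N ⟨hN1, hN.trans h2, h4.2⟩ (lt_of_le_of_ne hN h4.1)
  by_cases hb : ⁅R, R⁆ ≤ R ⊓ Cz E
  · by_cases hab : ⁅R, R⁆ = ⊥
    · exact c.case_ab (hIH.all hS le_rfl _) hR hab
    · exact c.case_symp (hIH.all hS le_rfl) hR hb hab
  · exact c.case_na hS hIH hb

end Pool.Agent.P.MP_870b40_al
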