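import Mathlib

namespace Pool.Agent.P.MP_870b40_al

open Subgroup
open scoped commutatorElement

universe u v

/-- nonabelian simple groups -/
class NAS (T : Type*) [Group T] : Prop extends IsSimpleGroup T where
  ncomm : ∃ a b : T, a * b ≠ b * a

section NAS
variable {T : Type*} [Group T] [NAS T]

theorem NAS.central {t : T} (h : ∀ s, s * t = t * s) : t = 1 := by
  rcases (inferInstance : (center T).Normal).eq_bot_or_eq_top with h1 | h1
  · have : t ∈ center T := mem_center_iff.2 h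
    rwa [h1, mem_bot] at this
  · obtain ⟨a, b, hab⟩ := NAS.ncomm (T := T)
    have : b ∈ center T := h1 ▸ mem_top b
    exact absurd (mem_center_iff.1 this a) hab

theorem NAS.comm_top : ⁅(⊤ : Subgroup T), (⊤ : Subgroup T)⁆ = ⊤ := by
  rcases (inferInstance : (⁅(⊤ : Subgroup T), (⊤ : Subgroup T)⁆).Normal).eq_bot_or_eq_top with h | h
  · obtain ⟨a, b, hab⟩ := NAS.ncomm (T := T)
    have : ⁅a, b⁆ ∈ ⁅(⊤ : Subgroup T), (⊤ : Subgroup T)⁆ :=
      commutator_mem_commutator (mem_top _) (mem_top _)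
    rw [h, mem_bot, commutatorElement_eq_one_iff_mul_comm] at this
    exact absurd this hab
  · exact h

theorem NAS.exists_ne_one : ∃ t : T, t ≠ 1 := exists_ne 1

theorem NAS.top_of_index [Finite T] (P : Subgroup T) (h : P.index ≤ 3) : P = ⊤ := by
  rcases (inferInstance : P.normalCore.Normal).eq_bot_or_eq_top with h1 | h1
  · exfalso
    have h2 : Nat.card T ∣ 6 := by
      have h3 : P.normalCore.index = Nat.card T := by rw [h1, index_bot]
      rw [← h3, normalCore_eq_ker, index_ker]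
      refine (card_subgroup_dvd_card _).trans ?_
      rw [Nat.card_perm, ← index_eq_card]
      exact Nat.factorial_dvd_factorial h
    have h4 : Squarefree (Nat.card T) := Squarefree.squarefree_of_dvd h2
      (by
        rw [show (6 : ℕ) = 2 * 3 from rfl, Nat.squarefree_mul (by norm_num)]
        exact ⟨Nat.prime_two.prime.squarefree, Nat.prime_three.prime.squarefree⟩)
    have := IsZGroup.of_squarefree h4
    obtain ⟨a, b, hab⟩ := NAS.ncomm (T := T)
    exact hab (IsSimpleGroup.comm_iff_isSolvable.2 inferInstance a b)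
  · exact top_le_iff.1 (h1 ▸ P.normalCore_le)

end NAS

section Defs
variable {G : Type u} [Group G] {T : Type v} [Group T]

/-- `A` maps onto `T` -/
def Full (φ : G →* T) (A : Subgroup G) : Prop := A.map φ = ⊤

/-- `L` normalises `K` -/
def Nz (L K : Subgroup G) : Prop := ∀ l ∈ L, ∀ a ∈ K, l * a * l⁻¹ ∈ K

/-- centraliser -/
abbrev Cz (K : Subgroup G) : Subgroup G := centralizer (K : Set G)

open Pointwise in
/-- conjugation action on subgroups -/
scoped instance conjAct : MulAction G (Subgroup G) :=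
  MulAction.compHom _ (MulAut.conj : G →* MulAut G)

open Pointwise in
theorem mem_smul {g x : G} {H : Subgroup G} : x ∈ g • H ↔ g⁻¹ * x * g ∈ H := by
  change x ∈ (MulAut.conj g) • H ↔ _
  rw [mem_pointwise_smul_iff_inv_smul_mem]
  simp

theorem smul_mem_smul {g x : G} {H : Subgroup G} : g * x * g⁻¹ ∈ g • H ↔ x ∈ H := by
  rw [mem_smul]; simp [mul_assoc]

theorem smul_mono {g : G} {H K : Subgroup G} (h : H ≤ K) : g • H ≤ g • K :=
  fun _ hx => mem_smul.2 (h (mem_smul.1 hx))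

theorem smul_le_iff {g : G} {H K : Subgroup G} : g • H ≤ g • K ↔ H ≤ K :=
  ⟨fun h => by simpa using smul_mono (g := g⁻¹) h, smul_mono⟩

theorem smul_inf' (g : G) (H K : Subgroup G) : g • (H ⊓ K) = g • H ⊓ g • K := by
  ext x; simp only [mem_smul, mem_inf]

theorem smul_eq_map (g : G) (H : Subgroup G) :
    g • H = H.map (MulAut.conj g).toMonoidHom := rfl

theorem smul_sup' (g : G) (H K : Subgroup G) : g • (H ⊔ K) = g • H ⊔ g • K := by
  simp only [smul_eq_map, Subgroup.map_sup]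

theorem smul_comm' (g : G) (H K : Subgroup G) : g • ⁅H, K⁆ = ⁅g • H, g • K⁆ := by
  simp only [smul_eq_map, Subgroup.map_commutator]

theorem smul_bot' (g : G) : g • (⊥ : Subgroup G) = ⊥ := by
  simp only [smul_eq_map, Subgroup.map_bot]

theorem smul_eq_bot {g : G} {H : Subgroup G} : g • H = ⊥ ↔ H = ⊥ :=
  ⟨fun h => by rw [← inv_smul_smul g H, h, smul_bot'], fun h => by rw [h, smul_bot']⟩

theorem mem_Cz {K : Subgroup G} {g : G} : g ∈ Cz K ↔ ∀ k ∈ K, k * g = g * k :=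
  mem_centralizer_iff

theorem le_Cz_comm {H K : Subgroup G} : H ≤ Cz K ↔ K ≤ Cz H := le_centralizer_iff

theorem Cz_anti {H K : Subgroup G} (h : H ≤ K) : Cz K ≤ Cz H := centralizer_le h

theorem smul_Cz (g : G) (K : Subgroup G) : g • Cz K = Cz (g • K) := by
  ext x
  rw [mem_smul, mem_Cz, mem_Cz]
  constructor
  · intro h k hk
    have := h _ (mem_smul.1 hk)
    calc k * x = g * (g⁻¹ * k * g * (g⁻¹ * x * g)) * g⁻¹ := by group
      _ = x * k := by rw [this]; group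
  · intro h k hk
    have := h _ (smul_mem_smul.2 hk)
    calc k * (g⁻¹ * x * g) = g⁻¹ * (g * k * g⁻¹ * x) * g := by group
      _ = _ := by rw [this]; group

theorem Nz.smul_eq {L K : Subgroup G} (h : Nz L K) {l : G} (hl : l ∈ L) : l • K = K := by
  ext x
  rw [mem_smul]
  constructor
  · intro hx
    have := h l hl _ hx
    simpa [mul_assoc] using this
  · intro hx
    simpa using h l⁻¹ (L.inv_mem hl) x hx

theorem nz_of_smul {L K : Subgroup G} (h : ∀ l ∈ L, l • K = K) : Nz L K := by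
  intro l hl a ha
  rw [← h l hl]
  exact smul_mem_smul.2 ha

theorem nz_iff {L K : Subgroup G} : Nz L K ↔ L ≤ normalizer (K : Set G) := by
  constructor
  · intro h l hl
    rw [mem_normalizer_iff]
    intro n
    refine ⟨h l hl n, fun hn => ?_⟩
    have := h l⁻¹ (L.inv_mem hl) _ hn
    simpa [mul_assoc] using this
  · intro h l hl a ha
    exact (mem_normalizer_iff.1 (h hl) a).1 ha

theorem Nz.mono {L L' K : Subgroup G} (h : Nz L K) (h' : L' ≤ L) : Nz L' K :=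
  fun l hl => h l (h' hl)

theorem nz_self (K : Subgroup G) : Nz K K :=
  fun _ hl _ ha => K.mul_mem (K.mul_mem hl ha) (K.inv_mem hl)

theorem nz_of_le {L K : Subgroup G} (h : L ≤ K) : Nz L K := (nz_self K).mono h

theorem nz_normal (L K : Subgroup G) [h : K.Normal] : Nz L K :=
  fun l _ a ha => h.conj_mem a ha l

theorem Nz.normal {K : Subgroup G} (h : Nz ⊤ K) : K.Normal :=
  ⟨fun a ha l => h l (mem_top _) a ha⟩

theorem Nz.inf {L K K' : Subgroup G} (h : Nz L K) (h' : Nz L K') : Nz L (K ⊓ K') :=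
  fun l hl a ha => ⟨h l hl a ha.1, h' l hl a ha.2⟩

theorem Nz.sup {L K K' : Subgroup G} (h : Nz L K) (h' : Nz L K') : Nz L (K ⊔ K') :=
  nz_of_smul fun l hl => by rw [smul_sup', h.smul_eq hl, h'.smul_eq hl]

theorem Nz.comm {L K K' : Subgroup G} (h : Nz L K) (h' : Nz L K') : Nz L ⁅K, K'⁆ :=
  nz_of_smul fun l hl => by rw [smul_comm', h.smul_eq hl, h'.smul_eq hl]

theorem Nz.cz {L K : Subgroup G} (h : Nz L K) : Nz L (Cz K) :=
  nz_of_smul fun l hl => by rw [smul_Cz, h.smul_eq hl]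

theorem Nz.sup_left {L L' K : Subgroup G} (h : Nz L K) (h' : Nz L' K) : Nz (L ⊔ L') K :=
  nz_iff.2 (sup_le (nz_iff.1 h) (nz_iff.1 h'))

theorem nz_of_le_Cz {L K : Subgroup G} (h : L ≤ Cz K) : Nz L K := by
  intro l hl a ha
  rw [← mem_Cz.1 (h hl) a ha]
  simpa using ha

theorem Nz.comm_le_right {L K : Subgroup G} (h : Nz L K) : ⁅L, K⁆ ≤ K :=
  le_normalizer_iff_commutator_le_right.1 (nz_iff.1 h)

theorem Nz.comm_le_left {L K : Subgroup G} (h : Nz L K) : ⁅K, L⁆ ≤ K :=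
  le_normalizer_iff_commutator_le_left.1 (nz_iff.1 h)

theorem nz_of_comm_le {L K : Subgroup G} (h : ⁅L, K⁆ ≤ K) : Nz L K :=
  nz_iff.2 (le_normalizer_iff_commutator_le_right.2 h)

theorem nz_comm_left (H K : Subgroup G) : Nz H ⁅H, K⁆ :=
  nz_iff.2 (normalizer_commutator_ge_left H K)

theorem nz_comm_right (H K : Subgroup G) : Nz K ⁅H, K⁆ :=
  nz_iff.2 (normalizer_commutator_ge_right H K)

theorem comm_eq_bot {H K : Subgroup G} : ⁅H, K⁆ = ⊥ ↔ H ≤ Cz K :=
  commutator_eq_bot_iff_le_centralizer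

/-- product decomposition when one factor normalises the other -/
theorem Nz.mem_sup {L K : Subgroup G} (h : Nz L K) {x : G} (hx : x ∈ K ⊔ L) :
    ∃ k ∈ K, ∃ l ∈ L, x = k * l := by
  have := coe_mul_of_right_le_normalizer_left K L (nz_iff.1 h)
  have hx' : x ∈ ((K ⊔ L : Subgroup G) : Set G) := hx
  rw [this] at hx'
  obtain ⟨k, hk, l, hl, rfl⟩ := hx'
  exact ⟨k, hk, l, hl, rfl⟩

/-- three subgroups consequence for a perfect group -/
theorem le_Cz_of_perfect {K X : Subgroup G} (hK : K ≤ ⁅K, K⁆) (h : ⁅X, K⁆ ≤ Cz K) : X ≤ Cz K := by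
  have h1 : ⁅⁅K, X⁆, K⁆ = ⊥ := by rw [commutator_comm K X]; exact comm_eq_bot.2 h
  have h2 : ⁅⁅X, K⁆, K⁆ = ⊥ := comm_eq_bot.2 h
  have h3 : ⁅⁅K, K⁆, X⁆ = ⊥ := commutator_commutator_eq_bot_of_rotate h1 h2
  exact le_Cz_comm.1 (hK.trans (comm_eq_bot.1 h3))

/-- a group normalising a cyclic group: its derived subgroup centralises it -/
theorem comm_centralizes {K : Subgroup G} {y : G} (h : Nz K (zpowers y)) :
    ⁅K, K⁆ ≤ Cz (zpowers y) := by
  rw [commutator_le]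
  intro a ha b hb
  obtain ⟨i, hi⟩ := mem_zpowers_iff.1 (h a ha y (mem_zpowers y))
  obtain ⟨j, hj⟩ := mem_zpowers_iff.1 (h b hb y (mem_zpowers y))
  have h1 : a * b * y * (a * b)⁻¹ = y ^ (i * j) := by
    calc a * b * y * (a * b)⁻¹ = a * (b * y * b⁻¹) * a⁻¹ := by group
      _ = (a * y * a⁻¹) ^ j := by rw [← hj, conj_zpow]
      _ = _ := by rw [← hi, zpow_mul]
  have h2 : b * a * y * (b * a)⁻¹ = y ^ (i * j) := by
    calc b * a * y * (b * a)⁻¹ = b * (a * y * a⁻¹) * b⁻¹ := by group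
      _ = (b * y * b⁻¹) ^ i := by rw [← hi, conj_zpow]
      _ = _ := by rw [← hj, ← zpow_mul, mul_comm]
  have h3 : Commute y ((b * a)⁻¹ * (a * b)) := by
    have := h1.trans h2.symm
    change y * _ = _ * y
    calc y * ((b * a)⁻¹ * (a * b)) = (b * a)⁻¹ * (b * a * y * (b * a)⁻¹) * (a * b) := by group
      _ = _ := by rw [← this]; group
  have h4 : (b * a)⁻¹ * (a * b) ∈ Cz (zpowers y) := by
    rw [mem_Cz]
    rintro k ⟨n, rfl⟩
    exact (h3.zpow_left n).eq
  have h5 := h.cz (b * a) (K.mul_mem hb ha) _ h4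
  have h6 : ⁅a, b⁆ = b * a * ((b * a)⁻¹ * (a * b)) * (b * a)⁻¹ := by
    rw [commutatorElement_def]; group
  rw [h6]; exact h5

variable {φ : G →* T}

theorem full_iff {A : Subgroup G} : Full φ A ↔ ∀ t, ∃ a ∈ A, φ a = t := by
  rw [Full, eq_top_iff']
  rfl

theorem Full.mono {A B : Subgroup G} (h : Full φ A) (hAB : A ≤ B) : Full φ B :=
  top_le_iff.1 (h ▸ map_mono hAB)

theorem Full.smul {A : Subgroup G} (h : Full φ A) (g : G) : Full φ (g • A) := by
  rw [full_iff] at h ⊢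
  intro t
  obtain ⟨a, ha, h1⟩ := h ((φ g)⁻¹ * t * φ g)
  refine ⟨g * a * g⁻¹, smul_mem_smul.2 ha, ?_⟩
  simp [h1, mul_assoc]

theorem Full.of_sup_ker {A K : Subgroup G} (h : Full φ (A ⊔ K)) (hK : K ≤ φ.ker) : Full φ A := by
  rw [Full, Subgroup.map_sup, (map_eq_bot_iff K).2 hK, sup_bot_eq] at h
  exact h

theorem Full.of_mul {A B : Subgroup G} (h : Full φ B)
    (hB : ∀ b ∈ B, ∃ a ∈ A, φ a = φ b) : Full φ A := by
  rw [full_iff] at h ⊢
  intro t
  obtain ⟨b, hb, rfl⟩ := h t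
  exact hB b hb

variable [NAS T]

theorem Full.comm {A B : Subgroup G} (h : Full φ A) (h' : Full φ B) : Full φ ⁅A, B⁆ := by
  rw [Full] at h h' ⊢
  rw [map_commutator, h, h', NAS.comm_top]

theorem Full.not_le_ker {A : Subgroup G} (h : Full φ A) : ¬ A ≤ φ.ker := by
  intro h1
  obtain ⟨t, ht⟩ := NAS.exists_ne_one (T := T)
  obtain ⟨a, ha, rfl⟩ := full_iff.1 h t
  exact ht (h1 ha)

theorem Full.ne_bot {A : Subgroup G} (h : Full φ A) : A ≠ ⊥ :=
  fun h1 => h.not_le_ker (h1 ▸ bot_le)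

theorem Full.dich {L K : Subgroup G} (h : Full φ L) (hK : Nz L K) : Full φ K ∨ K ≤ φ.ker := by
  have : (K.map φ).Normal := by
    refine ⟨?_⟩
    rintro _ ⟨k, hk, rfl⟩ t
    obtain ⟨l, hl, rfl⟩ := full_iff.1 h t
    exact ⟨l * k * l⁻¹, hK l hl k hk, by simp⟩
  rcases this.eq_bot_or_eq_top with h1 | h1
  · exact Or.inr ((map_eq_bot_iff K).1 h1)
  · exact Or.inl h1

/-- a normal full subgroup meeting `L` inside the kernel -/
theorem exists_not_full_of_inf_le_ker {E L : Subgroup G} (hE : Full φ E) (hLE : Nz L E)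
    (h : L ⊓ E ≤ φ.ker) : ∃ e ∈ E, ¬ Full φ (L ⊓ e • L) := by
  obtain ⟨t, ht⟩ := NAS.exists_ne_one (T := T)
  obtain ⟨e, he, rfl⟩ := full_iff.1 hE t
  refine ⟨e, he, fun hf => ht (NAS.central fun s => ?_)⟩
  obtain ⟨x, ⟨hx1, hx2⟩, rfl⟩ := full_iff.1 hf s
  have h1 : x⁻¹ * (e⁻¹ * x * e) ∈ L ⊓ E := by
    refine ⟨L.mul_mem (L.inv_mem hx1) (mem_smul.1 hx2), ?_⟩
    have := E.mul_mem (hLE x⁻¹ (L.inv_mem hx1) e⁻¹ (E.inv_mem he)) he
    simpa [mul_assoc] using this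
  have h2 := MonoidHom.mem_ker.1 (h h1)
  simp only [map_mul, map_inv] at h2
  calc φ x * φ e = φ e * φ x * ((φ x)⁻¹ * ((φ e)⁻¹ * φ x * φ e)) := by group
    _ = _ := by rw [h2, mul_one]

/-- the smallest full subgroup among those that it normalises -/
structure Res (φ : G →* T) (E L : Subgroup G) : Prop where
  le : E ≤ L
  full : Full φ E
  nz : Nz L E
  min : ∀ K, K ≤ L → Full φ K → Nz E K → E ≤ K

theorem Res.perfect {E L : Subgroup G} (h : Res φ E L) : E ≤ ⁅E, E⁆ :=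
  h.min _ ((commutator_le_self E).trans h.le) (h.full.comm h.full) (nz_comm_left E E)

omit [NAS T] in
theorem Res.restrict {E L L' : Subgroup G} (h : Res φ E L) (h1 : E ≤ L') (h2 : L' ≤ L) :
    Res φ E L' :=
  ⟨h1, h.full, h.nz.mono h2, fun K hK => h.min K (hK.trans h2)⟩

variable [Finite G]

theorem exists_res {L : Subgroup G} (hL : Full φ L) : ∃ E, Res φ E L := by
  obtain ⟨E, ⟨hE1, hE2, hE3⟩, hE⟩ :=
    wellFounded_lt.has_min {E : Subgroup G | E ≤ L ∧ Full φ E ∧ Nz L E} ⟨L, le_rfl, hL, nz_self L⟩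
  obtain ⟨F, ⟨hF1, hF2, hF3⟩, hF⟩ :=
    wellFounded_lt.has_min {F : Subgroup G | F ≤ E ∧ Full φ F ∧ Nz E F} ⟨E, le_rfl, hE2, nz_self E⟩
  have key : ∀ K, K ≤ E → Full φ K → Nz E K → F ≤ K := by
    intro K hK1 hK2 hK3
    have h1 : ⁅F, K⁆ ≤ F := (hF3.mono hK1).comm_le_left
    have h2 : ⁅F, K⁆ ≤ K := (hK3.mono hF1).comm_le_right
    have h3 := hF ⁅F, K⁆ ⟨h1.trans hF1, hF2.comm hK2, hF3.comm hK3⟩
    have h4 : ⁅F, K⁆ = F := by
      by_contra h4
      exact h3 (lt_of_le_of_ne h1 h4)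
    exact h4 ▸ h2
  have hFL : Nz L F := by
    intro l hl a ha
    have h1 : F ≤ l⁻¹ • F := by
      refine key _ ?_ (hF2.smul _) ?_
      · rw [← hE3.smul_eq (L.inv_mem hl)]; exact smul_mono hF1
      · refine nz_of_smul fun e he => ?_
        have h2 : l * e * l⁻¹ ∈ E := hE3 l hl e he
        rw [← mul_smul, show e * l⁻¹ = l⁻¹ * (l * e * l⁻¹) by group, mul_smul, hF3.smul_eq h2]
    simpa using mem_smul.1 (h1 ha)
  have hFE : F = E := by
    by_contra h
    exact hE F ⟨hF1.trans hE1, hF2, hFL⟩ (lt_of_le_of_ne hF1 h)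
  subst hFE
  refine ⟨F, hE1, hE2, hE3, fun K hK1 hK2 hK3 => ?_⟩
  have h1 : ⁅F, K⁆ ≤ F := (hE3.mono hK1).comm_le_left
  exact (key _ h1 (hE2.comm hK2) (nz_comm_left F K)).trans hK3.comm_le_right

theorem Full.of_label {X : Type*} (A : Finset X) (hA : A.card ≤ 3) {W W₀ : Subgroup G}
    (hW : Full φ W) (c : G → X) (hc : ∀ k ∈ W, c k ∈ A)
    (h : ∀ k ∈ W, ∀ k' ∈ W, c k = c k' → k⁻¹ * k' ∈ W₀) : Full φ W₀ := by
  have hs := full_iff.1 hW
  have : Finite T := Finite.of_surjective φ fun t => (hs t).imp fun _ h => h.2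
  choose k hk hk' using hs
  apply NAS.top_of_index
  rw [index_eq_card]
  let f : T ⧸ W₀.map φ → A := fun q => ⟨c (k q.out), hc _ (hk _)⟩
  have hf : Function.Injective f := by
    intro q q' hq
    have h1 := h _ (hk _) _ (hk _) (congrArg Subtype.val hq)
    rw [← q.out_eq', ← q'.out_eq', QuotientGroup.eq]
    exact ⟨_, h1, by simp [hk']⟩
  refine (Nat.card_le_card_of_injective f hf).trans ?_
  simpa using hA

theorem Full.inf_stab {X : Type*} [MulAction G X] (A : Finset X) (hA : A.card ≤ 3)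
    {W : Subgroup G} (hW : Full φ W) (x : X) (hx : ∀ w ∈ W, w • x ∈ A) :
    Full φ (W ⊓ MulAction.stabilizer G x) := by
  refine hW.of_label A hA (fun k => k • x) hx fun k hk k' hk' h => ⟨?_, ?_⟩
  · exact W.mul_mem (W.inv_mem hk) hk'
  · change (k⁻¹ * k') • x = x
    rw [mul_smul, ← show k • x = k' • x from h, inv_smul_smul]

/-- three conjugates suffice, inside `L` -/
def PP (φ : G →* T) (L : Subgroup G) : Prop :=
  ∀ H, H ≤ L → (∀ K, K ≤ H → Nz L K → ¬ Full φ K) →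
    ∃ g₁ ∈ L, ∃ g₂ ∈ L, ¬ Full φ (H ⊓ g₁ • H ⊓ g₂ • H)

/-- the set version -/
theorem exists_set {X : Type*} [MulAction G X] {E L : Subgroup G} (hE : Res φ E L)
    (hP : PP φ L) (Y : Set X) (hY : ∀ l ∈ L, ∀ y ∈ Y, l • y ∈ Y) {y : X} (hy : y ∈ Y) {e : G}
    (he : e ∈ E) (hey : e • y ≠ y) :
    ∃ A : Finset X, (∀ a ∈ A, a ∈ Y) ∧ A.card ≤ 3 ∧
      ∀ W, W ≤ L → (∀ w ∈ W, ∀ a ∈ A, w • a ∈ A) → ¬ Full φ W := by
  classical
  obtain ⟨g₁, hg₁, g₂, hg₂, h⟩ := hP (L ⊓ MulAction.stabilizer G y) inf_le_left (by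
    intro K hK hK1 hK2
    exact hey (hK (hE.min K (hK.trans inf_le_left) hK2 (hK1.mono hE.le) he)).2)
  have hc : ({y, g₁ • y, g₂ • y} : Finset X).card ≤ 3 := Finset.card_le_three
  refine ⟨{y, g₁ • y, g₂ • y}, ?_, hc, fun W hW hWA hf => h ?_⟩
  · intro a ha
    simp only [Finset.mem_insert, Finset.mem_singleton] at ha
    rcases ha with rfl | rfl | rfl
    exacts [hy, hY _ hg₁ _ hy, hY _ hg₂ _ hy]
  have h1 := hf.inf_stab _ hc y fun w hw => hWA w hw _ (by simp)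
  have h2 := h1.inf_stab _ hc (g₁ • y) fun w hw => hWA w hw.1 _ (by simp)
  have h3 := h2.inf_stab _ hc (g₂ • y) fun w hw => hWA w hw.1.1 _ (by simp)
  refine h3.mono ?_
  rintro x ⟨⟨⟨hx, hx1⟩, hx2⟩, hx3⟩
  have key : ∀ g ∈ L, x • g • y = g • y → x ∈ g • (L ⊓ MulAction.stabilizer G y) := by
    intro g hg hxg
    refine mem_smul.2 ⟨L.mul_mem (L.mul_mem (L.inv_mem hg) (hW hx)) hg, ?_⟩
    change (g⁻¹ * x * g) • y = y
    rw [mul_smul, mul_smul, hxg, inv_smul_smul]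
  exact ⟨⟨⟨hW hx, hx1⟩, key _ hg₁ hx2⟩, key _ hg₂ hx3⟩

end Defs

end Pool.Agent.P.MP_870b40_al
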