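import Pool.Agent.P.MP_870b40_al.Transfer

namespace Pool.Agent.P.MP_870b40_al

open Subgroup
open scoped commutatorElement

universe u v

variable {G : Type u} [Group G] {T : Type v} [Group T]

/-- minimal `M`-invariant subgroups of `M` -/
structure Comp (M S : Subgroup G) : Prop where
  le : S ≤ M
  ne : S ≠ ⊥
  nz : Nz M S
  min : ∀ N, N ≤ S → Nz M N → N = ⊥ ∨ N = S

/-- nonabelian minimal normal subgroup -/
structure MinNA (M : Subgroup G) : Prop where
  normal : M.Normal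
  min : ∀ N, N ≤ M → N.Normal → N = ⊥ ∨ N = M
  na : ¬ M ≤ Cz M

variable {M : Subgroup G}

theorem normal_smul (N : Subgroup G) [N.Normal] (g : G) : g • N = N :=
  (nz_normal ⊤ N).smul_eq (mem_top g)

theorem Nz.smul {L K : Subgroup G} (h : Nz L K) (g : G) : Nz (g • L) (g • K) := by
  intro l hl a ha
  rw [mem_smul] at hl ha ⊢
  have := h _ hl _ ha
  convert this using 1
  group

theorem MinNA.comp_smul (hM : MinNA M) {S : Subgroup G} (h : Comp M S) (g : G) :
    Comp M (g • S) := by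
  have := hM.normal
  refine ⟨?_, fun h1 => h.ne (smul_eq_bot.1 h1), ?_, fun N hN hN1 => ?_⟩
  · rw [← normal_smul M g]; exact smul_mono h.le
  · rw [← normal_smul M g]; exact h.nz.smul g
  · have h1 : g⁻¹ • N ≤ S := by simpa using smul_mono (g := g⁻¹) hN
    have h2 : Nz M (g⁻¹ • N) := by rw [← normal_smul M g⁻¹]; exact hN1.smul _
    rcases h.min _ h1 h2 with h3 | h3
    · exact Or.inl (smul_eq_bot.1 h3)
    · exact Or.inr (by rw [← h3, smul_inv_smul])

theorem Comp.le_Cz {S S' : Subgroup G} (h : Comp M S) (h' : Comp M S') (hne : S ≠ S') :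
    S ≤ Cz S' := by
  rcases h.min (S ⊓ S') inf_le_left (h.nz.inf h'.nz) with h1 | h1
  · rw [← comm_eq_bot, ← le_bot_iff, ← h1]
    exact le_inf (h.nz.mono h'.le).comm_le_left (h'.nz.mono h.le).comm_le_right
  · exfalso
    rcases h'.min S (h1 ▸ inf_le_right) h.nz with h2 | h2
    exacts [h.ne h2, hne h2]

theorem MinNA.ne_bot (hM : MinNA M) : M ≠ ⊥ := fun h => hM.na (h ▸ bot_le)

theorem MinNA.inf_Cz (hM : MinNA M) : M ⊓ Cz M = ⊥ := by
  have := hM.normal
  rcases hM.min (M ⊓ Cz M) inf_le_left inferInstance with h | h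
  · exact h
  · exact absurd (inf_eq_left.1 h) hM.na

theorem MinNA.le_of_conj (hM : MinNA M) {S N : Subgroup G} (hS : S ≤ M) (hS1 : S ≠ ⊥)
    (h : ∀ g : G, g • S ≤ N) : M ≤ N := by
  have := hM.normal
  have h1 : S ≤ M ⊓ N.normalCore := le_inf hS fun s hs g => h g (smul_mem_smul.2 hs)
  rcases hM.min (M ⊓ N.normalCore) inf_le_left inferInstance with h2 | h2
  · exact absurd (le_bot_iff.1 (h2 ▸ h1)) hS1
  · exact (h2 ▸ inf_le_right : M ≤ N.normalCore).trans N.normalCore_le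

variable [Finite G]

theorem MinNA.exists_comp (hM : MinNA M) : ∃ S, Comp M S := by
  obtain ⟨S, ⟨h1, h2, h3⟩, hS⟩ :=
    wellFounded_lt.has_min {S : Subgroup G | S ≤ M ∧ S ≠ ⊥ ∧ Nz M S}
      ⟨M, le_rfl, hM.ne_bot, nz_self M⟩
  refine ⟨S, h1, h2, h3, fun N hN hN1 => ?_⟩
  by_contra h
  push Not at h
  exact hS N ⟨hN.trans h1, h.1, hN1⟩ (lt_of_le_of_ne hN h.2)

theorem MinNA.le_of_comp (hM : MinNA M) {N : Subgroup G} (h : ∀ S, Comp M S → S ≤ N) : M ≤ N := by
  obtain ⟨S, hS⟩ := hM.exists_comp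
  exact hM.le_of_conj hS.le hS.ne fun g => h _ (hM.comp_smul hS g)

theorem MinNA.eq_one (hM : MinNA M) {x : G} (hx : x ∈ M) (h : ∀ S, Comp M S → x ∈ Cz S) :
    x = 1 := by
  have h1 : M ≤ Cz (zpowers x) :=
    hM.le_of_comp fun S hS => le_Cz_comm.1 (zpowers_le.2 (h S hS))
  have h2 : x ∈ M ⊓ Cz M := ⟨hx, zpowers_le.1 (le_Cz_comm.1 h1)⟩
  rwa [hM.inf_Cz, mem_bot] at h2

theorem MinNA.le_sup (hM : MinNA M) {S : Subgroup G} (hS : Comp M S) :
    M ≤ S ⊔ (M ⊓ Cz S) := by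
  refine hM.le_of_comp fun S' hS' => ?_
  by_cases h : S' = S
  · exact h ▸ le_sup_left
  · exact (le_inf hS'.le (hS'.le_Cz hS h)).trans le_sup_right

theorem MinNA.decomp (hM : MinNA M) {S : Subgroup G} (hS : Comp M S) {m : G} (hm : m ∈ M) :
    ∃ s ∈ S, ∃ c ∈ M ⊓ Cz S, m = s * c :=
  (hS.nz.mono inf_le_left).mem_sup (hM.le_sup hS hm)

theorem MinNA.comp_inf_Cz (hM : MinNA M) {S : Subgroup G} (hS : Comp M S) : S ⊓ Cz S = ⊥ := by
  rcases hS.min (S ⊓ Cz S) inf_le_left (hS.nz.inf hS.nz.cz) with h | h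
  · exact h
  · exfalso
    have h1 : M ≤ Cz S := (hM.le_sup hS).trans (sup_le (inf_eq_left.1 h) inf_le_right)
    exact hS.ne (le_bot_iff.1 (hM.inf_Cz ▸ le_inf hS.le (le_Cz_comm.1 h1)))

theorem MinNA.not_le_Cz (hM : MinNA M) {S : Subgroup G} (hS : Comp M S) : ¬ S ≤ Cz S :=
  fun h => hS.ne (le_bot_iff.1 (hM.comp_inf_Cz hS ▸ le_inf le_rfl h))

theorem MinNA.eq_one_of_mem (hM : MinNA M) {S : Subgroup G} (hS : Comp M S) {x : G}
    (h1 : x ∈ S) (h2 : x ∈ Cz S) : x = 1 := by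
  have : x ∈ S ⊓ Cz S := ⟨h1, h2⟩
  rwa [hM.comp_inf_Cz hS, mem_bot] at this

theorem MinNA.mem_of_Cz (hM : MinNA M) {S : Subgroup G} (hS : Comp M S) {x : G} (hx : x ∈ M)
    (h : ∀ S', Comp M S' → S' ≠ S → x ∈ Cz S') : x ∈ S := by
  obtain ⟨s, hs, c, hc, rfl⟩ := hM.decomp hS hx
  have : c = 1 := hM.eq_one hc.1 fun S' hS' => by
    by_cases h1 : S' = S
    · exact h1 ▸ hc.2
    · exact ((Cz S').mul_mem_cancel_left (hS.le_Cz hS' (Ne.symm h1) hs)).1 (h S' hS' h1)
  simpa [this] using hs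

theorem MinNA.simple (hM : MinNA M) {S : Subgroup G} (hS : Comp M S) {N : Subgroup G}
    (h1 : N ≤ S) (h2 : Nz S N) : N = ⊥ ∨ N = S :=
  hS.min N h1 ((h2.sup_left (nz_of_le_Cz (inf_le_right.trans (Cz_anti h1)))).mono (hM.le_sup hS))

theorem MinNA.nas (hM : MinNA M) {S : Subgroup G} (hS : Comp M S) : NAS S := by
  have : Nontrivial S := (nontrivial_iff_ne_bot S).2 hS.ne
  refine { eq_bot_or_eq_top_of_normal := fun N hN => ?_, ncomm := ?_ }
  · have h1 : Nz S (N.map S.subtype) := by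
      rintro l hl _ ⟨k, hk, rfl⟩
      exact ⟨_, hN.conj_mem k hk ⟨l, hl⟩, rfl⟩
    rcases hM.simple hS (map_subtype_le N) h1 with h | h
    · exact Or.inl ((map_eq_bot_iff_of_injective _ S.subtype_injective).1 h)
    · right
      apply map_injective S.subtype_injective
      rw [h, ← MonoidHom.range_eq_map, range_subtype]
  · by_contra h
    push Not at h
    exact hM.not_le_Cz hS fun a ha => mem_Cz.2 fun b hb =>
      congrArg Subtype.val (h ⟨b, hb⟩ ⟨a, ha⟩)

omit [Finite G] in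
/-- element with prescribed support -/
theorem exists_support (Q : Subgroup G → Subgroup G)
    (hQ : ∀ S, Comp M S → M ⊓ Cz S ≤ Q S) (A : Finset (Subgroup G))
    (hA : ∀ S ∈ A, Comp M S ∧ ¬ S ≤ Q S) :
    ∃ x ∈ M, (∀ S ∈ A, x ∉ Q S) ∧ ∀ S, Comp M S → S ∉ A → x ∈ Cz S := by
  classical
  induction A using Finset.induction_on with
  | empty => exact ⟨1, M.one_mem, by simp, fun S _ _ => (Cz S).one_mem⟩
  | insert S A hS ih =>
    obtain ⟨x, hx, h1, h2⟩ := ih fun S' hS' => hA S' (Finset.mem_insert_of_mem hS')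
    obtain ⟨hc, hn⟩ := hA S (Finset.mem_insert_self _ _)
    obtain ⟨s, hs, hs'⟩ := SetLike.not_le_iff_exists.1 hn
    refine ⟨s * x, M.mul_mem (hc.le hs) hx, fun S' hS' => ?_, fun S' hS' hS'' => ?_⟩
    · rcases Finset.mem_insert.1 hS' with rfl | h3
      · rwa [(Q S').mul_mem_cancel_right (hQ _ hc ⟨hx, h2 _ hc hS⟩)]
      · have hc' := (hA S' hS').1
        have : s ∈ Q S' := hQ _ hc' ⟨hc.le hs, hc.le_Cz hc' (fun h => hS (h ▸ h3)) hs⟩
        rw [(Q S').mul_mem_cancel_left this]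
        exact h1 S' h3
    · rw [Finset.mem_insert, not_or] at hS''
      exact (Cz S').mul_mem (hc.le_Cz hS' (Ne.symm hS''.1) hs) (h2 S' hS' hS''.2)

variable [NAS T] {φ : G →* T}

/-- the Schreier step -/
theorem MinNA.exists_moved (hM : MinNA M) (hS : Sch φ) (hk : M ≤ φ.ker) (hC : ¬ Full φ (Cz M))
    {E L : Subgroup G} (hE : Res φ E L) : ∃ S, Comp M S ∧ ∃ e ∈ E, e • S ≠ S := by
  classical
  by_contra hcon
  push Not at hcon
  have h1 : ∀ S, Comp M S → E ≤ S ⊔ Cz S := by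
    intro S hc
    have hz : Nz E S := nz_of_smul (hcon S hc)
    have hz' : Nz E (E ⊓ (S ⊔ Cz S)) := (nz_self E).inf (hz.sup hz.cz)
    rcases hE.full.dich hz' with h | h
    · exact (hE.min _ (inf_le_left.trans hE.le) h hz').trans inf_le_right
    · exfalso
      have := hM.nas hc
      refine hS S (hc.le.trans hk) S (MonoidHom.id S) Function.surjective_id
        ⟨E, inferInstance, S.normalizerMonoidHom.comp (inclusion (nz_iff.1 hz)),
          φ.comp E.subtype, fun t => ?_, ?_⟩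
      · obtain ⟨e, he, rfl⟩ := full_iff.1 hE.full t
        exact ⟨⟨e, he⟩, rfl⟩
      · rintro ⟨e, he⟩ ⟨s, hs⟩
        refine h ⟨he, ?_⟩
        have h2 : (s : G)⁻¹ * e ∈ Cz S := by
          rw [mem_Cz]
          intro k hk
          have h3 : e * k * e⁻¹ = s * k * (s : G)⁻¹ := by
            have h5 := congrArg Subtype.val (DFunLike.congr_fun hs ⟨k, hk⟩)
            simpa using h5
          calc k * ((s : G)⁻¹ * e) = (s : G)⁻¹ * (s * k * (s : G)⁻¹) * e := by group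
            _ = _ := by rw [← h3]; group
        have h4 := (S ⊔ Cz S).mul_mem (mem_sup_left s.2) (mem_sup_right h2)
        simpa using h4
  refine hC (hE.full.of_mul fun e he => ?_)
  have h2 : ∀ A : Finset (Subgroup G), (∀ S ∈ A, Comp M S) →
      ∃ m ∈ M, ∀ S ∈ A, m⁻¹ * e ∈ Cz S := by
    intro A
    induction A using Finset.induction_on with
    | empty => exact fun _ => ⟨1, M.one_mem, by simp⟩
    | insert S A hSA ih =>
      intro hA
      obtain ⟨m, hm, h3⟩ := ih fun S' hS' => hA S' (Finset.mem_insert_of_mem hS')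
      have hc := hA S (Finset.mem_insert_self _ _)
      have h4 : m⁻¹ * e ∈ S ⊔ Cz S := (S ⊔ Cz S).mul_mem
        (((hM.le_sup hc).trans (sup_le_sup_left inf_le_right _)) (M.inv_mem hm)) (h1 S hc he)
      obtain ⟨s, hs, c, hc', h5⟩ := (nz_of_le_Cz le_rfl).mem_sup h4
      refine ⟨m * s, M.mul_mem hm (hc.le hs), fun S' hS' => ?_⟩
      rw [mul_inv_rev, mul_assoc]
      rcases Finset.mem_insert.1 hS' with rfl | h6
      · rw [h5]; simpa using hc'
      · exact (Cz S').mul_mem ((Cz S').inv_mem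
          (hc.le_Cz (hA S' hS') (fun h => hSA (h ▸ h6)) hs)) (h3 S' h6)
  obtain ⟨m, hm, h3⟩ := h2 (Set.toFinite {S | Comp M S}).toFinset (by simp)
  refine ⟨m⁻¹ * e, ?_, by rw [map_mul, map_inv, MonoidHom.mem_ker.1 (hk hm)]; simp⟩
  have h4 : M ≤ Cz (zpowers (m⁻¹ * e)) :=
    hM.le_of_comp fun S hc => le_Cz_comm.1 (zpowers_le.2 (h3 S (by simpa using hc)))
  exact zpowers_le.1 (le_Cz_comm.1 h4)

end Pool.Agent.P.MP_870b40_al
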