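import Pool.Agent.P.MP_870b40_al.AffB

namespace Pool.Agent.P.MP_870b40_al

open Subgroup MulAction
open scoped commutatorElement

universe u v w

variable {G : Type u} [Group G] {T : Type v} [Group T]

theorem IH.mono {n m : ℕ} (h : IH.{u} n T) (hm : m ≤ n) : IH.{u} m T :=
  fun Γ _ _ ψ hψ hΓ => h Γ ψ hψ (hΓ.trans hm)

variable [Finite G] [NAS T] {φ : G →* T}

omit [NAS T] in
theorem card_le_of_ne_top {n : ℕ} (hG : Nat.card G ≤ n + 1) {L : Subgroup G} (hL : L ≠ ⊤) :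
    Nat.card L ≤ n := by
  have h1 : Nat.card L ≤ Nat.card G := card_le_card_group L
  have h2 : Nat.card L ≠ Nat.card G := fun h => hL (eq_top_of_card_eq L h)
  omega

theorem affine {n : ℕ} (hIH : IH.{u} n T) (hS : Sch φ) (hG : Nat.card G ≤ n + 1)
    {H M : Subgroup G} [hM : M.Normal] (hH : H ≠ ⊤) (hM1 : M ≠ ⊥)
    (hmin : ∀ N, N ≤ M → N.Normal → N = ⊥ ∨ N = M) (hab : M ≤ Cz M) (hMH : M ⊔ H = ⊤)
    (hC : ∀ x ∈ H, x ∈ Cz M → x = 1) : ∃ g₁ g₂ : G, ¬ Full φ (H ⊓ g₁ • H ⊓ g₂ • H) := by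
  let _ : CommGroup M :=
    { (inferInstance : Group M) with
      mul_comm := fun a b => Subtype.ext (mem_Cz.1 (hab b.2) a a.2) }
  let _ : MulDistribMulAction H M :=
    MulDistribMulAction.compHom M ((MulAut.conjNormal (H := M)).comp H.subtype)
  have hsm : ∀ (h : H) (a : M), ((h • a : M) : G) = h * a * (h : G)⁻¹ := fun h a => rfl
  have hst : ∀ (h : H) (a : M), h ∈ stabilizer H a ↔ (h : G) * a * (h : G)⁻¹ = a := fun h a => by
    rw [mem_stabilizer_iff, Subtype.ext_iff, hsm]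
  have : Nontrivial M := (nontrivial_iff_ne_bot M).2 hM1
  have hI : Irr H M := by
    refine ⟨fun h hh => Subtype.ext (hC h h.2 (mem_Cz.2 fun k hk => ?_)), fun U hU => ?_⟩
    · have h1 := (hst h ⟨k, hk⟩).1 (hh _)
      exact (mul_inv_eq_iff_eq_mul.1 h1).symm
    · have h1 : Nz (M ⊔ H) (U.map M.subtype) := by
        refine Nz.sup_left (nz_of_le_Cz (hab.trans (Cz_anti (map_subtype_le U)))) ?_
        rintro l hl _ ⟨a, ha, rfl⟩
        exact ⟨_, hU ⟨l, hl⟩ a ha, rfl⟩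
      rw [hMH] at h1
      rcases hmin _ (map_subtype_le U) h1.normal with h | h
      · exact Or.inl ((map_eq_bot_iff_of_injective _ M.subtype_injective).1 h)
      · right
        apply map_injective M.subtype_injective
        rw [h, ← MonoidHom.range_eq_map, range_subtype]
  have hR : Red M (φ.comp H.subtype) := by
    intro U L hU hLU hK
    have hz : Nz (L.map H.subtype) (U.map M.subtype) := by
      rintro _ ⟨l, hl, rfl⟩ _ ⟨a, ha, rfl⟩
      exact ⟨_, hLU l hl a ha, rfl⟩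
    have hne : U.map M.subtype ⊔ L.map H.subtype ≠ ⊤ := by
      intro h
      refine hU (eq_top_iff.2 fun m _ => ?_)
      obtain ⟨_, ⟨a, ha, rfl⟩, _, ⟨l, -, rfl⟩, h1⟩ := hz.mem_sup (h ▸ mem_top (m : G))
      have h2 : (l : G) ∈ M := by
        have h3 := m.2
        rw [h1] at h3
        exact (M.mul_mem_cancel_left a.2).1 h3
      have h3 : m = a := Subtype.ext (by
        rw [h1, show H.subtype l = 1 from hC l l.2 (hab h2), mul_one]; rfl)
      exact h3 ▸ ha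
    obtain ⟨g₁, hg₁, g₂, hg₂, h⟩ := hIH.sub hS _ (card_le_of_ne_top hG hne) (L.map H.subtype)
      le_sup_right (by
        intro K hKL hKz hKf
        have hKH : K ≤ H := hKL.trans (map_subtype_le L)
        refine hK (K.subgroupOf H) (fun k hk => ?_) (fun l hl k hk => ?_) ?_ fun a ha k hk => ?_
        · obtain ⟨l, hl, h1⟩ := hKL hk
          exact (Subtype.ext h1 : l = k) ▸ hl
        · exact hKz _ (mem_sup_right (mem_map_of_mem _ hl)) _ hk
        · rw [← full_map, subgroupOf_map_subtype, inf_eq_left.2 hKH]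
          exact hKf
        · rw [hst]
          have h1 := hKz _ (mem_sup_left (mem_map_of_mem _ ha)) _ (K.inv_mem hk)
          have h2 := hC _ (hKH (K.mul_mem hk h1)) (hab (by
            have := M.mul_mem (hM.conj_mem _ a.2 k) (M.inv_mem a.2)
            simpa [mul_assoc] using this))
          rw [← mul_inv_eq_one, ← h2]
          simp [mul_assoc])
    obtain ⟨_, ⟨a, ha, rfl⟩, l₁, hl₁, rfl⟩ := hz.mem_sup hg₁
    obtain ⟨_, ⟨b, hb, rfl⟩, l₂, hl₂, rfl⟩ := hz.mem_sup hg₂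
    refine ⟨a, ha, b, hb, fun hf => h (((full_map _ _).2 hf).mono ?_)⟩
    have key : ∀ (a : M) (l : G), l ∈ L.map H.subtype → ∀ x ∈ L, x ∈ stabilizer H a →
        (x : G) ∈ (M.subtype a * l) • L.map H.subtype := by
      intro a l hl x hx hxa
      rw [hst, mul_inv_eq_iff_eq_mul] at hxa
      rw [mem_smul]
      have h1 : (M.subtype a * l)⁻¹ * x * (M.subtype a * l) = l⁻¹ * x * l := by
        calc (M.subtype a * l)⁻¹ * x * (M.subtype a * l)
            = l⁻¹ * (a : G)⁻¹ * ((x : G) * a) * l := by simp [mul_assoc]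
          _ = _ := by rw [hxa]; group
      rw [h1]
      exact mul_mem (mul_mem (inv_mem hl) (mem_map_of_mem _ hx)) hl
    rintro _ ⟨x, ⟨⟨hx, hxa⟩, hxb⟩, rfl⟩
    exact ⟨⟨mem_map_of_mem _ hx, key a _ hl₁ x hx hxa⟩, key b _ hl₂ x hx hxb⟩
  obtain ⟨a, b, h⟩ := hI.goal (hS.comp_inj _ H.subtype_injective)
    (hIH.mono (card_le_of_ne_top hG hH)) hR
  refine ⟨a, b, fun hf => h ?_⟩
  rw [← full_map]
  refine hf.mono ?_
  have key : ∀ (a : M) (x : H), (x : G) ∈ (a : G) • H → x ∈ stabilizer H a := by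
    intro a x hx
    rw [hst]
    have h1 := hC _ (H.mul_mem (mem_smul.1 hx) (H.inv_mem x.2)) (hab (by
      have := M.mul_mem (M.inv_mem a.2) (hM.conj_mem _ a.2 x)
      simpa [mul_assoc] using this))
    rw [eq_comm, ← inv_mul_eq_one, ← h1]
    simp [mul_assoc]
  rintro x ⟨⟨hx, hxa⟩, hxb⟩
  exact ⟨⟨x, hx⟩, ⟨key a _ hxa, key b _ hxb⟩, rfl⟩

theorem primitive {n : ℕ} (hIH : IH.{u} n T) (hS : Sch φ) (hG : Nat.card G ≤ n + 1)
    {H : Subgroup G} (hH : H ≠ ⊤) (hco : ∀ H', H < H' → H' = ⊤)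
    (hN : ∀ N, N ≤ H → N.Normal → N = ⊥) : ∃ g₁ g₂ : G, ¬ Full φ (H ⊓ g₁ • H ⊓ g₂ • H) := by
  by_cases hf : Full φ H
  swap
  · exact ⟨1, 1, by simpa using hf⟩
  have hk : φ.ker ≠ ⊥ := by
    intro h
    refine hH (eq_top_iff.2 fun g _ => ?_)
    obtain ⟨a, ha, h1⟩ := full_iff.1 hf (φ g)
    exact (φ.ker_eq_bot_iff.1 h h1) ▸ ha
  obtain ⟨M, ⟨hM, hM1, hMk⟩, hMmin⟩ :=
    wellFounded_lt.has_min {M : Subgroup G | M.Normal ∧ M ≠ ⊥ ∧ M ≤ φ.ker}
      ⟨φ.ker, inferInstance, hk, le_rfl⟩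
  have hmin : ∀ N, N ≤ M → N.Normal → N = ⊥ ∨ N = M := by
    intro N hN1 hN2
    by_contra h
    push Not at h
    exact hMmin N ⟨hN2, h.1, hN1.trans hMk⟩ (lt_of_le_of_ne hN1 h.2)
  have hMH : M ⊔ H = ⊤ :=
    hco _ (lt_of_le_not_ge le_sup_right fun h => hM1 (hN M (le_sup_left.trans h) hM))
  have hC : H ⊓ Cz M = ⊥ := by
    refine hN _ inf_le_left (Nz.normal ?_)
    rw [← hMH]
    exact (nz_of_le_Cz (le_Cz_comm.1 inf_le_right)).sup_left ((nz_self H).inf (nz_normal _ _))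
  by_cases hCf : Full φ (Cz M)
  · obtain ⟨e, -, h⟩ := exists_not_full_of_inf_le_ker hCf (nz_normal H _) (hC ▸ bot_le)
    exact ⟨e, e, fun h1 => h (h1.mono inf_le_left)⟩
  by_cases hab : M ≤ Cz M
  · exact affine hIH hS hG hH hM1 hmin hab hMH fun x h1 h2 =>
      mem_bot.1 (hC ▸ (⟨h1, h2⟩ : x ∈ H ⊓ Cz M))
  have hNA : MinNA M := ⟨hM, hmin, hab⟩
  obtain ⟨x, hx, h⟩ := hNA.main (M₀ := M ⊓ H) (L := H) hS hMk hCf
    (fun L' hL' => hIH.sub hS L' (card_le_of_ne_top hG fun h => hH (top_le_iff.1 (h ▸ hL'))))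
    inf_le_left ((nz_normal _ _).inf (nz_self _)) (by
      intro S hS1 hS2
      refine hM1 (hN M (hNA.le_of_conj hS1.le hS1.ne fun g => ?_) hM)
      obtain ⟨m, hm, l, hl, h1⟩ := (nz_normal H M).mem_sup (hMH ▸ mem_top g⁻¹)
      rw [← inv_inv g, h1, mul_inv_rev, mul_smul, hS1.nz.smul_eq (M.inv_mem hm),
        ← (nz_self H).smul_eq (H.inv_mem hl)]
      exact smul_mono (hS2.trans inf_le_right))
  refine ⟨x, x, fun h1 => h (H ⊓ x • H) inf_le_left (fun g hg => ⟨?_, ?_⟩) (h1.mono inf_le_left)⟩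
  · exact M.mul_mem (M.inv_mem hx) (hM.conj_mem x hx g)
  · have := H.mul_mem (mem_smul.1 hg.2) (H.inv_mem hg.1)
    simpa [mul_assoc] using this

theorem step {n : ℕ} (hIH : IH.{u} n T) (hS : Sch φ) (hG : Nat.card G ≤ n + 1) : PP φ ⊤ := by
  intro H₀ _ hK
  by_cases hf : Full φ ⊤
  swap
  · exact ⟨1, mem_top _, 1, mem_top _, fun h => hf (h.mono le_top)⟩
  obtain ⟨D, hD⟩ := exists_res hf
  obtain ⟨H, ⟨hH0, hDH⟩, hmax⟩ := wellFounded_gt.has_min {H : Subgroup G | H₀ ≤ H ∧ ¬ D ≤ H}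
    ⟨H₀, le_rfl, fun h => hK D h hD.nz hD.full⟩
  suffices h : ∃ g₁ g₂ : G, ¬ Full φ (H ⊓ g₁ • H ⊓ g₂ • H) by
    obtain ⟨g₁, g₂, h⟩ := h
    exact ⟨g₁, mem_top _, g₂, mem_top _, fun h1 => h (h1.mono
      (inf_le_inf (inf_le_inf hH0 (smul_mono hH0)) (smul_mono hH0)))⟩
  by_cases hco : ∀ H', H < H' → H' = ⊤
  swap
  · push Not at hco
    obtain ⟨H', h1, h2⟩ := hco
    have h3 : D ≤ H' := by
      by_contra h3
      exact hmax H' ⟨hH0.trans h1.le, h3⟩ h1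
    obtain ⟨g₁, -, g₂, -, h⟩ := hIH.sub hS H' (card_le_of_ne_top hG h2) H h1.le
      fun K hKH hKz hKf => hDH ((hD.min K le_top hKf (hKz.mono h3)).trans hKH)
    exact ⟨g₁, g₂, h⟩
  by_cases hN : H.normalCore = ⊥
  · exact primitive hIH hS hG (fun h => hDH (h ▸ le_top)) hco
      fun N hN1 hN2 => le_bot_iff.1 (hN ▸ normal_le_normalCore.2 hN1)
  set N := H.normalCore
  have hNk : N ≤ φ.ker := (hf.dich (nz_normal _ N)).resolve_left fun h =>
    hDH ((hD.min N le_top h (nz_normal _ _)).trans H.normalCore_le)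
  let π : G →* G ⧸ N := QuotientGroup.mk' N
  have hπ : Function.Surjective π := QuotientGroup.mk'_surjective N
  have hker : π.ker = N := QuotientGroup.ker_mk' N
  let ψ : G ⧸ N →* T := QuotientGroup.lift N φ hNk
  have hψ : ψ.comp π = φ := QuotientGroup.lift_comp_mk' _ _ _
  have hcard : Nat.card (G ⧸ N) ≤ n := by
    have h1 := card_eq_card_quotient_mul_card_subgroup N
    have h2 : 1 < Nat.card N := (one_lt_card_iff_ne_bot N).2 hN
    have h3 : 0 < Nat.card (G ⧸ N) := Nat.card_pos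
    nlinarith
  obtain ⟨g₁, -, g₂, -, h⟩ := hIH _ ψ (Sch.of_comp_surj π hπ (hψ ▸ hS)) hcard (H.map π) le_top (by
    intro K hKH hKz hKf
    have := hKz.normal
    rw [← map_comap_eq_self_of_surjective hπ K, full_map, hψ] at hKf
    refine hDH ((hD.min _ le_top hKf (nz_normal _ _)).trans ((comap_mono hKH).trans ?_))
    rw [comap_map_eq, hker]
    exact sup_le le_rfl H.normalCore_le)
  obtain ⟨g₁, rfl⟩ := hπ g₁
  obtain ⟨g₂, rfl⟩ := hπ g₂
  refine ⟨g₁, g₂, fun hf => h ?_⟩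
  rw [← hψ, ← full_map] at hf
  refine hf.mono ?_
  rintro _ ⟨x, ⟨⟨hx, hx1⟩, hx2⟩, rfl⟩
  exact ⟨⟨mem_map_of_mem _ hx, mem_smul.2 ⟨_, mem_smul.1 hx1, by simp⟩⟩,
    mem_smul.2 ⟨_, mem_smul.1 hx2, by simp⟩⟩

theorem ih_all (n : ℕ) : IH.{u} n T := by
  induction n with
  | zero =>
    intro Γ _ _ ψ _ h
    exact absurd h (not_le.2 Nat.card_pos)
  | succ n ih => exact fun Γ _ _ ψ hψ h => step ih hψ h

theorem main {Ω : Type w} [MulAction G Ω] [FaithfulSMul G Ω] (hφ : Function.Surjective φ)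
    (hS : Sch φ) : ∃ Δ : Finset Ω, Δ.card ≤ 3 ∧
      ∀ W : Subgroup G, (∀ w ∈ W, ∀ a ∈ Δ, w • a ∈ Δ) → W.map φ ≠ ⊤ := by
  obtain ⟨E, hE⟩ := exists_res (φ := φ) (L := ⊤)
    (full_iff.2 fun t => (hφ t).imp fun g h => ⟨mem_top g, h⟩)
  obtain ⟨e, he, he1⟩ := (E.bot_or_exists_ne_one).resolve_left hE.full.ne_bot
  obtain ⟨y, hy⟩ : ∃ y : Ω, e • y ≠ y := by
    by_contra h
    push Not at h
    exact he1 (eq_of_smul_eq_smul (α := Ω) fun y => by rw [h y, one_smul])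
  obtain ⟨A, -, h1, h2⟩ := exists_set hE (ih_all _ G φ hS le_rfl) Set.univ
    (fun _ _ _ _ => Set.mem_univ _) (Set.mem_univ y) he hy
  exact ⟨A, h1, fun W hW => h2 W le_top hW⟩

end Pool.Agent.P.MP_870b40_al
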