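import Pool.Agent.P.MP_870b40_al.Comp

namespace Pool.Agent.P.MP_870b40_al

open Subgroup
open scoped commutatorElement

universe u v

variable {G : Type u} [Group G] {T : Type v} [Group T] [Finite G] {M M₀ : Subgroup G}

omit [Finite G] in
theorem conj_mem_Cz {S : Subgroup G} {h x : G} : h * x * h⁻¹ ∈ Cz S ↔ x ∈ Cz (h⁻¹ • S) := by
  rw [← smul_Cz, mem_smul, inv_inv]

/-- components onto which `M₀` projects -/
def Onto (M M₀ S : Subgroup G) : Prop := Comp M S ∧ M ≤ M₀ ⊔ (M ⊓ Cz S)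

theorem MinNA.q0 (hM : MinNA M) {S : Subgroup G} (hS : Onto M M₀ S) : ¬ M₀ ≤ Cz S := fun h =>
  hM.not_le_Cz hS.1 (hS.1.le.trans (hS.2.trans (sup_le h inf_le_right)))

theorem MinNA.q1 (hM : MinNA M) (h0 : M₀ ≤ M) {S N : Subgroup G} (hS : Onto M M₀ S)
    (hN : N ≤ M₀) (hz : Nz M₀ N) (hn : ¬ N ≤ Cz S) {s : G} (hs : s ∈ S) :
    ∃ c ∈ M ⊓ Cz S, ∃ n ∈ N, s = c * n := by
  have hMC : Nz M (M ⊓ Cz S) := (nz_self M).inf hS.1.nz.cz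
  have h1 : Nz M (((M ⊓ Cz S) ⊔ N) ⊓ S) := by
    refine Nz.mono (Nz.sup_left ?_ ?_) hS.2
    · exact ((hMC.mono h0).sup hz).inf (hS.1.nz.mono h0)
    · exact nz_of_le_Cz (inf_le_right.trans (Cz_anti inf_le_right))
  rcases hS.1.min _ inf_le_right h1 with h | h
  · exfalso
    refine hn fun n hn' => ?_
    obtain ⟨s', hs', c, hc, h2⟩ := hM.decomp hS.1 (h0 (hN hn'))
    have h3 : s' ∈ ((M ⊓ Cz S) ⊔ N) ⊓ S := by
      refine ⟨?_, hs'⟩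
      have : s' = n * c⁻¹ := by rw [h2]; group
      rw [this]
      exact Subgroup.mul_mem _ (mem_sup_right hn') (Subgroup.inv_mem _ (mem_sup_left hc))
    rw [h, mem_bot] at h3
    rw [h2, h3, one_mul]
    exact hc.2
  · exact (hMC.mono (hN.trans h0)).mem_sup (inf_eq_right.1 h hs)

theorem MinNA.q2 (hM : MinNA M) (h0 : M₀ ≤ M) {S : Subgroup G} (hS : Onto M M₀ S)
    (hc : ¬ S ≤ M₀) : ∃ S', Comp M S' ∧ S' ≠ S ∧ M₀ ⊓ Cz S' ≤ Cz S := by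
  by_contra hcon
  push Not at hcon
  obtain ⟨N, ⟨hN1, hN2, hN3⟩, hN⟩ :=
    wellFounded_lt.has_min {N : Subgroup G | N ≤ M₀ ∧ Nz M₀ N ∧ ¬ N ≤ Cz S}
      ⟨M₀, le_rfl, nz_self _, hM.q0 hS⟩
  have h1 : ∀ S', Comp M S' → S' ≠ S → N ≤ Cz S' := by
    intro S' hS' hne
    have hK : Nz M₀ (M₀ ⊓ Cz S') := (nz_self _).inf (hS'.nz.cz.mono h0)
    have h2 : ⁅N, M₀ ⊓ Cz S'⁆ ≤ N := (hN2.mono inf_le_left).comm_le_left
    have h3 : ⁅N, M₀ ⊓ Cz S'⁆ ≤ M₀ ⊓ Cz S' := (hK.mono hN1).comm_le_right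
    have h4 : ¬ ⁅N, M₀ ⊓ Cz S'⁆ ≤ Cz S := by
      intro h4
      refine hM.not_le_Cz hS.1 fun a ha => mem_Cz.2 fun b hb => ?_
      obtain ⟨c, hc, n, hn, hcn⟩ := hM.q1 h0 hS hN1 hN2 hN3 hb
      obtain ⟨d, hd, k, hk, hdk⟩ := hM.q1 h0 hS inf_le_left hK (hcon S' hS' hne) ha
      have h5 := h4 (commutator_mem_commutator hn hk)
      have hn' : n = c⁻¹ * b := by rw [hcn]; group
      have hk' : k = d⁻¹ * a := by rw [hdk]; group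
      have hca := mem_Cz.1 hc.2 a ha
      have hcb := mem_Cz.1 hc.2 b hb
      have hda := mem_Cz.1 hd.2 a ha
      have hdb := mem_Cz.1 hd.2 b hb
      have c1 : Commute a c := hca
      have c2 : Commute b c := hcb
      have c3 : Commute a d := hda
      have c4 : Commute b d := hdb
      have h6 : ⁅n, k⁆ = ⁅c⁻¹, d⁻¹⁆ * ⁅b, a⁆ := by
        rw [hn', hk']
        simp only [commutatorElement_def, mul_inv_rev, inv_inv, mul_assoc]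
        rw [c4.inv_right.left_comm, c2.inv_left.left_comm, c1.left_comm, c2.left_comm,
          c3.inv_left.eq, c4.inv_left.left_comm, c3.left_comm, c4.left_comm]
      have h7 : ⁅c⁻¹, d⁻¹⁆ ∈ Cz S :=
        commutator_le_self _ (commutator_mem_commutator (inv_mem hc.2) (inv_mem hd.2))
      rw [h6, (Cz S).mul_mem_cancel_left h7] at h5
      exact commutatorElement_eq_one_iff_mul_comm.1
        (hM.eq_one_of_mem hS.1 (commutator_le_self _ (commutator_mem_commutator hb ha)) h5)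
    have h5 : ⁅N, M₀ ⊓ Cz S'⁆ = N := by
      by_contra h5
      exact hN _ ⟨h2.trans hN1, hN2.comm hK, h4⟩ (lt_of_le_of_ne h2 h5)
    exact (h5 ▸ h3).trans inf_le_right
  refine hc fun s hs => ?_
  obtain ⟨c, hc, n, hn, hcn⟩ := hM.q1 h0 hS hN1 hN2 hN3 hs
  have h2 : n ∈ S := hM.mem_of_Cz hS.1 (h0 (hN1 hn)) fun S' hS' hne => h1 S' hS' hne hn
  have h3 : c ∈ S := by
    rw [hcn] at hs
    exact (S.mul_mem_cancel_right h2).1 hs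
  rw [hcn, hM.eq_one_of_mem hS.1 h3 hc.2, one_mul]
  exact hN1 hn

theorem MinNA.q3 (hM : MinNA M) (h0 : M₀ ≤ M) {S S' : Subgroup G} (hS : Onto M M₀ S)
    (hS' : Onto M M₀ S') (h : M₀ ⊓ Cz S' ≤ Cz S) : M₀ ⊓ Cz S' = M₀ ⊓ Cz S := by
  refine le_antisymm (le_inf inf_le_left h) (le_inf inf_le_left ?_)
  by_contra hcon
  have hK : Nz M₀ (M₀ ⊓ Cz S) := (nz_self _).inf (hS.1.nz.cz.mono h0)
  refine hM.q0 hS fun m hm => ?_
  obtain ⟨s, hs, c, hc, h1⟩ := hM.decomp hS'.1 (h0 hm)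
  obtain ⟨d, hd, k, hk, h2⟩ := hM.q1 h0 hS' inf_le_left hK hcon hs
  have h3 : m = (d * (k * c * k⁻¹)) * k := by rw [h1, h2]; group
  have h4 : d * (k * c * k⁻¹) ∈ Cz S' :=
    mul_mem hd.2 (hS'.1.nz.cz k (h0 hk.1) c hc.2)
  have h5 : d * (k * c * k⁻¹) ∈ M₀ := by
    rw [h3] at hm
    exact (M₀.mul_mem_cancel_right hk.1).1 hm
  rw [h3]
  exact mul_mem (h ⟨h5, h4⟩) hk.2

omit [Finite G] in
theorem MinNA.onto_smul (hM : MinNA M) {S : Subgroup G} (hS : Onto M M₀ S) {l : G}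
    (hl : l • M₀ = M₀) : Onto M M₀ (l • S) := by
  have := hM.normal
  refine ⟨hM.comp_smul hS.1 l, ?_⟩
  have h1 := smul_mono (g := l) hS.2
  rwa [smul_sup', smul_inf', smul_Cz, normal_smul M, hl] at h1

variable [NAS T] {φ : G →* T}

theorem MinNA.caseP (hM : MinNA M) {E L : Subgroup G} (hE : Res φ E L) (hP : PP φ L)
    (hz : Nz L M₀) {S₀ : Subgroup G} (hS₀ : Comp M S₀) (hS₁ : ¬ Onto M M₀ S₀) {e : G}
    (he : e ∈ E) (hne : e • S₀ ≠ S₀) :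
    ∃ x ∈ M, ∀ W, W ≤ L → (∀ h ∈ W, x⁻¹ * (h * x * h⁻¹) ∈ M₀) → ¬ Full φ W := by
  obtain ⟨A, hA1, -, hA⟩ := exists_set hE hP {S | Comp M S ∧ ¬ Onto M M₀ S}
    (fun l hl S hS => ⟨hM.comp_smul hS.1 l, fun h => hS.2 (by
      simpa using hM.onto_smul h (hz.smul_eq (L.inv_mem hl)))⟩) ⟨hS₀, hS₁⟩ he hne
  obtain ⟨x, hx, h1, h2⟩ := exists_support (M := M) (fun S => M₀ ⊔ (M ⊓ Cz S))
    (fun S _ => le_sup_right) A fun S hS => ⟨(hA1 S hS).1, fun h => (hA1 S hS).2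
      ⟨(hA1 S hS).1, (hM.le_sup (hA1 S hS).1).trans (sup_le h le_sup_right)⟩⟩
  refine ⟨x, hx, fun W hW hW' => hA W hW fun h hh S hS => ?_⟩
  by_contra hcon
  have h3 := h2 _ (hM.comp_smul (hA1 S hS).1 h) hcon
  have h4 : h⁻¹ * x * h⁻¹⁻¹ ∈ Cz S := by rw [conj_mem_Cz, inv_inv]; exact h3
  have h5 : h⁻¹ * x * h⁻¹⁻¹ ∈ M₀ ⊔ (M ⊓ Cz S) := mem_sup_right ⟨hM.normal.conj_mem x hx _, h4⟩
  have h6 : x⁻¹ * (h⁻¹ * x * h⁻¹⁻¹) ∈ M₀ ⊔ (M ⊓ Cz S) := mem_sup_left (hW' _ (W.inv_mem hh))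
  rw [Subgroup.mul_mem_cancel_right _ h5, inv_mem_iff] at h6
  exact h1 S hS h6

theorem MinNA.caseQ1 (hM : MinNA M) (h0 : M₀ ≤ M) (hc : ∀ S, Comp M S → ¬ S ≤ M₀)
    {E L : Subgroup G} (hE : Res φ E L) (hP : PP φ L)
    (hz : Nz L M₀) {S₀ : Subgroup G} (hS₀ : Onto M M₀ S₀) {e : G}
    (he : e ∈ E) (hne : e • (M₀ ⊓ Cz S₀) ≠ M₀ ⊓ Cz S₀) :
    ∃ x ∈ M, ∀ W, W ≤ L → (∀ h ∈ W, x⁻¹ * (h * x * h⁻¹) ∈ M₀) → ¬ Full φ W := by
  classical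
  have hsm : ∀ l ∈ L, ∀ S : Subgroup G, l • (M₀ ⊓ Cz S) = M₀ ⊓ Cz (l • S) := fun l hl S => by
    rw [smul_inf', smul_Cz, hz.smul_eq hl]
  obtain ⟨A, hA1, -, hA⟩ := exists_set hE hP {K | ∃ S, Onto M M₀ S ∧ M₀ ⊓ Cz S = K}
    (by
      rintro l hl _ ⟨S, hS, rfl⟩
      exact ⟨l • S, hM.onto_smul hS (hz.smul_eq hl), (hsm l hl S).symm⟩) ⟨S₀, hS₀, rfl⟩ he hne
  choose! σ hσ1 hσ2 using hA1
  have hB : ∀ S ∈ A.image σ, Onto M M₀ S ∧ M₀ ⊓ Cz S ∈ A ∧ σ (M₀ ⊓ Cz S) = S := by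
    intro S hS
    obtain ⟨K, hK, rfl⟩ := Finset.mem_image.1 hS
    rw [hσ2 K hK]
    exact ⟨hσ1 K hK, hK, rfl⟩
  obtain ⟨x, hx, h1, h2⟩ := exists_support (M := M) (fun S => Cz S)
    (fun S _ => inf_le_right) (A.image σ) fun S hS =>
      ⟨(hB S hS).1.1, hM.not_le_Cz (hB S hS).1.1⟩
  refine ⟨x, hx, fun W hW hW' => hA W hW fun h hh K hK => ?_⟩
  by_contra hcon
  have hS := hσ1 K hK
  have hSK := hσ2 K hK
  have hm := hW' _ (W.inv_mem hh)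
  have key : ∀ S, Comp M S → (Onto M M₀ S → M₀ ⊓ Cz S = K) → h⁻¹ * x * h⁻¹⁻¹ ∈ Cz S := by
    intro S hS1 hS2
    rw [conj_mem_Cz, inv_inv]
    refine h2 _ (hM.comp_smul hS1 h) fun h3 => hcon ?_
    have h4 : Onto M M₀ S := by
      simpa using hM.onto_smul (hB _ h3).1 (hz.smul_eq (L.inv_mem (hW hh)))
    rw [← hS2 h4, hsm h (hW hh)]
    exact (hB _ h3).2.1
  obtain ⟨S', hS'1, hS'2, hS'3⟩ := hM.q2 h0 hS (hc _ hS.1)
  have h3 : Onto M M₀ S' → M₀ ⊓ Cz S' = K := fun h3 => (hM.q3 h0 hS h3 hS'3).trans hSK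
  have h4 : x ∈ Cz S' := h2 _ hS'1 fun h4 => hS'2 (by
    rw [← (hB _ h4).2.2, h3 (hB _ h4).1])
  have h5 := hS'3 ⟨hm, (Cz S').mul_mem ((Cz S').inv_mem h4) (key S' hS'1 h3)⟩
  rw [Subgroup.mul_mem_cancel_right _ (key _ hS.1 fun _ => hSK), inv_mem_iff] at h5
  exact h1 _ (Finset.mem_image_of_mem σ hK) h5

open scoped Pointwise in
theorem MinNA.caseQ2 (hM : MinNA M)
    {E L : Subgroup G} (hE : Res φ E L) (hP : ∀ L', L' ≤ L → PP φ L')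
    (hz : Nz L M₀) {S₀ : Subgroup G} (hS₀ : Onto M M₀ S₀) (hK : Nz E (M₀ ⊓ Cz S₀)) {e : G}
    (he : e ∈ E) (hne : e • S₀ ≠ S₀) :
    ∃ x ∈ M, ∀ W, W ≤ L → (∀ h ∈ W, x⁻¹ * (h * x * h⁻¹) ∈ M₀) → ¬ Full φ W := by
  classical
  have hsm : ∀ l ∈ L, ∀ S : Subgroup G, l • (M₀ ⊓ Cz S) = M₀ ⊓ Cz (l • S) := fun l hl S => by
    rw [smul_inf', smul_Cz, hz.smul_eq hl]
  set K₀ := M₀ ⊓ Cz S₀ with hK₀
  let L' := L ⊓ MulAction.stabilizer G K₀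
  have hEL' : E ≤ L' := le_inf hE.le fun e he => hK.smul_eq he
  have hE' : Res φ E L' := hE.restrict hEL' inf_le_left
  let B : Finset (Subgroup G) := (Set.toFinite {S | Onto M M₀ S ∧ M₀ ⊓ Cz S = K₀}).toFinset
  have hB : ∀ S, S ∈ B ↔ Onto M M₀ S ∧ M₀ ⊓ Cz S = K₀ := fun S => by simp [B]
  have hBL : ∀ l ∈ L', ∀ S ∈ B, l • S ∈ B := by
    intro l hl S hS
    rw [hB] at hS ⊢
    refine ⟨hM.onto_smul hS.1 (hz.smul_eq hl.1), ?_⟩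
    rw [← hsm l hl.1, hS.2]
    exact hl.2
  obtain ⟨A₀, hA₀, -, hA₀'⟩ := exists_set hE' (hP L' inf_le_left) (B : Set (Subgroup G)) hBL
    ((hB S₀).2 ⟨hS₀, rfl⟩) he hne
  obtain ⟨A, ⟨hA1, hA⟩, hAmin⟩ := exists_minimalFor_of_wellFoundedLT
    (fun A : Finset (Subgroup G) => A ⊆ B ∧
      ∀ W, W ≤ L' → (∀ w ∈ W, ∀ a ∈ A, w • a ∈ A) → ¬ Full φ W) Finset.card ⟨A₀, hA₀, hA₀'⟩
  have hfull : Full φ L' := hE.full.mono hEL'
  have hcard : A.card ≤ (B \ A).card := by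
    by_contra hcon
    refine hcon (hAmin ⟨Finset.sdiff_subset, fun W hW hW' => hA W hW fun w hw a ha => ?_⟩
      (not_le.1 hcon).le)
    by_contra h1
    have h2 := hW' _ (W.inv_mem hw) _ (Finset.mem_sdiff.2 ⟨hBL w (hW hw) a (hA1 ha), h1⟩)
    rw [inv_smul_smul] at h2
    exact (Finset.mem_sdiff.1 h2).2 ha
  obtain ⟨S₁, hS₁⟩ : A.Nonempty := by
    rw [Finset.nonempty_iff_ne_empty]
    rintro rfl
    exact hA L' le_rfl (by simp) hfull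
  obtain ⟨S₂, hS₂⟩ : (B \ A).Nonempty :=
    Finset.card_pos.1 ((Finset.card_pos.2 ⟨S₁, hS₁⟩).trans_le hcard)
  obtain ⟨x, hx, h1, h2⟩ := exists_support (M := M) (fun S => Cz S)
    (fun S _ => inf_le_right) A fun S hS =>
      ⟨((hB S).1 (hA1 hS)).1.1, hM.not_le_Cz ((hB S).1 (hA1 hS)).1.1⟩
  have h3 : ∀ h : G, ∀ S ∈ B, h * x * h⁻¹ ∉ Cz S → S ∈ h • A := by
    intro h S hS h3
    rw [← Finset.inv_smul_mem_iff]
    by_contra h4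
    exact h3 (conj_mem_Cz.2 (h2 _ (hM.comp_smul ((hB S).1 hS).1.1 _) h4))
  have h4 : ∀ m ∈ M₀, ∀ S ∈ B, m ∈ K₀ ↔ m ∈ Cz S := by
    intro m hm S hS
    rw [← ((hB S).1 hS).2]
    exact ⟨fun h => h.2, fun h => ⟨hm, h⟩⟩
  refine ⟨x, hx, fun W hW hW' hf => ?_⟩
  have hWL' : W ≤ L' := by
    intro h hh
    refine ⟨hW hh, ?_⟩
    by_contra hcon
    have h5 : ∀ S ∈ B, h * x * h⁻¹ ∈ Cz S := by
      intro S hS
      by_contra h5
      have h6 := h3 h S hS h5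
      rw [← Finset.inv_smul_mem_iff] at h6
      have h7 := ((hB _).1 (hA1 h6)).2
      rw [← hsm _ (L.inv_mem (hW hh)), ((hB S).1 hS).2, inv_smul_eq_iff] at h7
      exact hcon h7.symm
    have hS₂' := Finset.mem_sdiff.1 hS₂
    have h6 : x⁻¹ * (h * x * h⁻¹) ∈ Cz S₂ :=
      mul_mem (inv_mem (h2 _ ((hB _).1 hS₂'.1).1.1 hS₂'.2)) (h5 _ hS₂'.1)
    rw [← h4 _ (hW' h hh) _ hS₂'.1, h4 _ (hW' h hh) _ (hA1 hS₁),
      Subgroup.mul_mem_cancel_right _ (h5 _ (hA1 hS₁)), inv_mem_iff] at h6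
    exact h1 _ hS₁ h6
  have h5 := hf.inf_stab ({A, B \ A} : Finset (Finset (Subgroup G)))
    (Finset.card_le_two.trans (by norm_num)) A (by
      intro h hh
      rw [Finset.mem_insert, Finset.mem_singleton]
      by_cases hm : x⁻¹ * (h * x * h⁻¹) ∈ K₀
      · left
        refine (Finset.eq_of_subset_of_card_le (fun S hS => h3 h S (hA1 hS) fun h5 => ?_)
          (by rw [Finset.card_smul_finset])).symm
        rw [h4 _ (hW' h hh) _ (hA1 hS), Subgroup.mul_mem_cancel_right _ h5, inv_mem_iff] at hm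
        exact h1 S hS hm
      · right
        refine (Finset.eq_of_subset_of_card_le (fun S hS => ?_)
          (by rw [Finset.card_smul_finset]; exact hcard)).symm
        have hS' := Finset.mem_sdiff.1 hS
        refine h3 h S hS'.1 fun h5 => hm ?_
        rw [h4 _ (hW' h hh) _ hS'.1]
        exact mul_mem (inv_mem (h2 _ ((hB _).1 hS'.1).1.1 hS'.2)) h5)
  refine hA _ (inf_le_left.trans hWL') (fun w hw a ha => ?_) h5
  have h6 : w • A = A := hw.2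
  rw [← h6]
  exact Finset.smul_mem_smul_finset ha

/-- the nonabelian case -/
theorem MinNA.main (hM : MinNA M) (hS : Sch φ) (hk : M ≤ φ.ker) (hC : ¬ Full φ (Cz M))
    {L : Subgroup G} (hP : ∀ L', L' ≤ L → PP φ L') (h0 : M₀ ≤ M) (hz : Nz L M₀)
    (hc : ∀ S, Comp M S → ¬ S ≤ M₀) :
    ∃ x ∈ M, ∀ W, W ≤ L → (∀ h ∈ W, x⁻¹ * (h * x * h⁻¹) ∈ M₀) → ¬ Full φ W := by
  by_cases hL : Full φ L
  swap
  · exact ⟨1, M.one_mem, fun W hW _ hf => hL (hf.mono hW)⟩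
  obtain ⟨E, hE⟩ := exists_res hL
  obtain ⟨S, hS1, e, he, hne⟩ := hM.exists_moved hS hk hC hE
  by_cases h1 : Onto M M₀ S
  · by_cases h2 : Nz E (M₀ ⊓ Cz S)
    · exact hM.caseQ2 hE hP hz h1 h2 he hne
    · have : ∃ e ∈ E, e • (M₀ ⊓ Cz S) ≠ M₀ ⊓ Cz S := by
        by_contra h3
        push Not at h3
        exact h2 (nz_of_smul h3)
      obtain ⟨e', he', hne'⟩ := this
      exact hM.caseQ1 h0 hc hE (hP L le_rfl) hz h1 he' hne'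
  · exact hM.caseP hE (hP L le_rfl) hz hS1 h1 he hne

end Pool.Agent.P.MP_870b40_al
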