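import Pool.Agent.P.MP_870b40_al.Basic

namespace Pool.Agent.P.MP_870b40_al

open Subgroup
open scoped commutatorElement

universe u v

/-- `T` is a section of the outer automorphism group of `S` (internal form) -/
def OutSec (S : Type u) [Group S] (T : Type v) [Group T] : Prop :=
  ∃ (K : Type u) (_ : Group K) (ρ : K →* MulAut S) (ψ : K →* T),
    Function.Surjective ψ ∧ ∀ k, (∃ s, ρ k = MulAut.conj s) → ψ k = 1

variable {G : Type u} [Group G] {T : Type v} [Group T]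

/-- the Schreier-type hypothesis -/
def Sch (φ : G →* T) : Prop :=
  ∀ A : Subgroup G, A ≤ φ.ker → ∀ (S : Type u) [Group S] [NAS S] (f : A →* S),
    Function.Surjective f → ¬ OutSec S T

theorem Sch.comp_inj {G' : Type u} [Group G'] {φ : G →* T} (h : Sch φ) (ι : G' →* G)
    (hι : Function.Injective ι) : Sch (φ.comp ι) := by
  intro A hA S _ _ f hf
  refine h (A.map ι) ?_ S (f.comp (A.equivMapOfInjective ι hι).symm.toMonoidHom) ?_
  · rintro _ ⟨a, ha, rfl⟩
    exact hA ha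
  · exact hf.comp (A.equivMapOfInjective ι hι).symm.surjective

theorem Sch.of_comp_surj {G' : Type u} [Group G'] {φ' : G' →* T} (π : G →* G')
    (hπ : Function.Surjective π) (h : Sch (φ'.comp π)) : Sch φ' := by
  intro A hA S _ _ f hf
  refine h (A.comap π) (fun x hx => hA hx) S (f.comp (π.subgroupComap A)) ?_
  exact hf.comp (π.subgroupComap_surjective_of_surjective A hπ)

theorem full_map {G' : Type u} [Group G'] {φ' : G' →* T} (π : G →* G') (A : Subgroup G) :
    Full φ' (A.map π) ↔ Full (φ'.comp π) A := by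
  rw [Full, Full, map_map]

theorem PP.of_subtype {φ : G →* T} {L : Subgroup G} (h : PP (φ.comp L.subtype) ⊤) : PP φ L := by
  intro H hH hK
  obtain ⟨g₁, -, g₂, -, h1⟩ := h (H.subgroupOf L) le_top (by
    intro K hKH hKz hKf
    refine hK (K.map L.subtype) ?_ ?_ ((full_map _ _).2 hKf)
    · rintro _ ⟨k, hk, rfl⟩
      exact hKH hk
    · rintro l hl _ ⟨k, hk, rfl⟩
      exact ⟨_, hKz ⟨l, hl⟩ (mem_top _) k hk, rfl⟩)
  refine ⟨g₁, g₁.2, g₂, g₂.2, fun hf => h1 ?_⟩
  rw [full_iff] at hf ⊢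
  intro t
  obtain ⟨a, ⟨⟨ha, ha1⟩, ha2⟩, rfl⟩ := hf t
  refine ⟨⟨a, hH ha⟩, ⟨⟨ha, mem_smul.2 ?_⟩, mem_smul.2 ?_⟩, rfl⟩
  · exact mem_smul (H := H).1 ha1
  · exact mem_smul (H := H).1 ha2

/-- the induction hypothesis -/
def IH (n : ℕ) (T : Type v) [Group T] : Prop :=
  ∀ (Γ : Type u) [Group Γ] [Finite Γ] (ψ : Γ →* T), Sch ψ → Nat.card Γ ≤ n → PP ψ ⊤

theorem IH.sub {n : ℕ} (h : IH.{u} n T) [Finite G] {φ : G →* T} (hφ : Sch φ) (L : Subgroup G)
    (hL : Nat.card L ≤ n) : PP φ L :=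
  PP.of_subtype (h L _ (hφ.comp_inj _ L.subtype_injective) hL)

theorem IH.all {n : ℕ} (h : IH.{u} n T) [Finite G] {φ : G →* T} (hφ : Sch φ)
    (hG : Nat.card G ≤ n) (L : Subgroup G) : PP φ L :=
  h.sub hφ L ((Nat.card_le_card_of_injective _ L.subtype_injective).trans hG)

end Pool.Agent.P.MP_870b40_al
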